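import Pool.Agent.V11124.HC.Z

open Finset

set_option linter.unusedSectionVars false

namespace Pool.Agent.V11124.HC

/-- `ℕ[X] → ℂ(q)` -/
noncomputable def iota : Polynomial ℕ →+* K :=
  (algebraMap (Polynomial ℂ) K).comp (Polynomial.mapRingHom (Nat.castRingHom ℂ))

lemma iota_inj : Function.Injective iota := by
  unfold iota
  rw [RingHom.coe_comp]
  apply (RatFunc.algebraMap_injective ℂ).comp
  exact Polynomial.map_injective _ (Nat.cast_injective)

lemma iota_X : iota Polynomial.X = q := by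
  unfold iota
  simp [q]

lemma sum_ne_zero {ι : Type*} (s : Finset ι) (f : ι → K)
    (hf : ∀ i ∈ s, f i = 0 ∨ ∃ k : ℕ, f i = q ^ k) (i0 : ι) (hi0 : i0 ∈ s)
    (h0 : ∃ k : ℕ, f i0 = q ^ k) : ∑ i ∈ s, f i ≠ 0 := by
  classical
  have hp : ∀ i, ∃ p : Polynomial ℕ, i ∈ s → f i = iota p := by
    intro i
    by_cases hi : i ∈ s
    · rcases hf i hi with h | ⟨k, h⟩
      · exact ⟨0, fun _ => by rw [h, map_zero]⟩
      · exact ⟨Polynomial.X ^ k, fun _ => by rw [h, map_pow, iota_X]⟩
    · exact ⟨0, fun h => absurd h hi⟩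
  choose p hp using hp
  have h1 : ∑ i ∈ s, f i = iota (∑ i ∈ s, p i) := by
    rw [map_sum]; exact sum_congr rfl (fun i hi => hp i hi)
  rw [h1]
  intro h2
  have h3 : ∑ i ∈ s, p i = 0 := iota_inj (by rw [h2, map_zero])
  have h4 : ∑ i ∈ s, (p i).eval 1 = 0 := by
    rw [← Polynomial.eval_finsetSum, h3, Polynomial.eval_zero]
  have h5 : (p i0).eval 1 = 0 := by
    rw [Finset.sum_eq_zero_iff] at h4
    exact h4 i0 hi0
  obtain ⟨k, hk⟩ := h0
  have h6 : p i0 = Polynomial.X ^ k := by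
    apply iota_inj
    rw [← hp i0 hi0, hk, map_pow, iota_X]
  rw [h6] at h5
  simp at h5

section
variable {R : Type*} [Ring R] [Algebra K R] {t : ℕ → R} {M N : ℕ} {A : R}

/-- mirrored product -/
def Dr (t : ℕ → R) (S : Finset ℕ) (n : ℕ) : R := (Dp (fun i => MulOpposite.op (t i)) S n).unop

lemma Dr_in (ht : HRel t M) {S : Finset ℕ} {j : ℕ} (h1 : j ∈ S) (h2 : j + 1 ∈ S) {n : ℕ}
    (hn : j + 2 ≤ n) (hnM : n ≤ M + 1) :
    Dr t S n * t j = t (cnt S j) * Dr t S n := by
  have := congrArg MulOpposite.unop (D_in ht.op h1 h2 hn hnM)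
  simpa [Dr] using this

lemma Dr_out (ht : HRel t M) {S : Finset ℕ} {j : ℕ} (h1 : j ∉ S) (h2 : j + 1 ∉ S) {n : ℕ}
    (hn : j + 2 ≤ n) (hnM : n ≤ M + 1) :
    Dr t S n * t j = t (j + (cnt S n - cnt S j)) * Dr t S n := by
  have := congrArg MulOpposite.unop (D_out ht.op h1 h2 hn hnM).2.2
  simpa [Dr] using this

lemma Dr_swap (ht : HRel t M) {S S' : Finset ℕ} {j : ℕ} (h1 : j ∈ S) (h2 : j + 1 ∉ S)
    (hS' : ∀ i, i ∈ S' ↔ tr j i ∈ S) {n : ℕ}
    (hn : j + 2 ≤ n) (hnM : n ≤ M + 1) :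
    Dr t S' n = Dr t S n * t j := by
  have := congrArg MulOpposite.unop (D_swap ht.op h1 h2 hS' hn hnM).1
  simpa [Dr] using this

/-- summand -/
def aS (t : ℕ → R) (A : R) (S : Finset ℕ) (n : ℕ) : R := Dp t S n * A * Dr t S n

/-- the relative norm of `A` -/
def zz (t : ℕ → R) (A : R) (N n : ℕ) : R :=
  ∑ S ∈ powersetCard (N + 1) (range n), aS t A S n

lemma a_swap (ht : HRel t M) {S : Finset ℕ} {j : ℕ} (hj : j < M) (h1 : j ∈ S) (h2 : j + 1 ∉ S) :
    aS t A (S.image (tr j)) (M + 1) = t j * aS t A S (M + 1) * t j := by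
  unfold aS
  rw [(D_swap ht h1 h2 (S' := S.image (tr j)) (fun i => mem_image_tr) (n := M + 1) (by omega)
    le_rfl).1, Dr_swap ht h1 h2 (S' := S.image (tr j)) (fun i => mem_image_tr) (n := M + 1)
    (by omega) le_rfl]
  simp only [mul_assoc]

lemma zz_comm (ht : HRel t M) (hA1 : ∀ i < N, t i * A = A * t i)
    (hA3 : ∀ j, N + 1 ≤ j → j < M → t j * A = A * t j) {j : ℕ} (hj : j < M) :
    t j * zz t A N (M + 1) = zz t A N (M + 1) * t j := by
  rw [← sub_eq_zero]
  unfold zz
  rw [mul_sum, sum_mul, ← sum_sub_distrib]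
  have key : ∀ S : Finset ℕ, j ∈ S → j + 1 ∉ S →
      (t j * aS t A S (M + 1) - aS t A S (M + 1) * t j) +
      (t j * aS t A (S.image (tr j)) (M + 1) - aS t A (S.image (tr j)) (M + 1) * t j) = 0 := by
    intro S h1 h2
    rw [a_swap ht hj h1 h2]
    set a := aS t A S (M + 1)
    have hq := ht.quad j hj
    have e1 : t j * (t j * a * t j) = a * t j + (q - q⁻¹) • (t j * a * t j) := by
      calc t j * (t j * a * t j) = (t j * t j) * a * t j := by simp only [mul_assoc]
        _ = _ := by rw [hq, add_mul, add_mul, one_mul, smul_mul_assoc, smul_mul_assoc]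
    have e2 : (t j * a * t j) * t j = t j * a + (q - q⁻¹) • (t j * a * t j) := by
      calc (t j * a * t j) * t j = t j * a * (t j * t j) := by simp only [mul_assoc]
        _ = _ := by rw [hq, mul_add, mul_one, mul_smul_comm]
    rw [e1, e2]; abel
  have keyz : ∀ S ∈ powersetCard (N + 1) (range (M + 1)), (j ∈ S ↔ j + 1 ∈ S) →
      t j * aS t A S (M + 1) - aS t A S (M + 1) * t j = 0 := by
    intro S hS hiff
    rw [mem_powersetCard] at hS
    obtain ⟨hS, hc⟩ := hS
    rw [sub_eq_zero]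
    unfold aS
    by_cases h1 : j ∈ S
    · have h2 := hiff.1 h1
      have hlt := cnt_lt_of_in hS hc h1 h2
      rw [mul_assoc (Dp t S (M + 1) * A), Dr_in ht h1 h2 (by omega) le_rfl]
      calc t j * (Dp t S (M + 1) * A * Dr t S (M + 1))
          = (t j * Dp t S (M + 1)) * A * Dr t S (M + 1) := by simp only [mul_assoc]
        _ = Dp t S (M + 1) * (t (cnt S j) * A) * Dr t S (M + 1) := by
            rw [D_in ht h1 h2 (by omega) le_rfl]; simp only [mul_assoc]
        _ = _ := by rw [hA1 _ hlt]; simp only [mul_assoc]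
    · have h2 : j + 1 ∉ S := fun h => h1 (hiff.2 h)
      obtain ⟨b1, b2, b3⟩ := D_out ht h1 h2 (n := M + 1) (by omega) le_rfl
      rw [mul_assoc (Dp t S (M + 1) * A), Dr_out ht h1 h2 (by omega) le_rfl]
      have hcn : cnt S (M + 1) = N + 1 := by rw [cnt_all hS, hc]
      calc t j * (Dp t S (M + 1) * A * Dr t S (M + 1))
          = (t j * Dp t S (M + 1)) * A * Dr t S (M + 1) := by simp only [mul_assoc]
        _ = Dp t S (M + 1) * (t (j + (cnt S (M + 1) - cnt S j)) * A) * Dr t S (M + 1) := by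
            rw [b3]; simp only [mul_assoc]
        _ = _ := by rw [hA3 _ (by omega) (by omega)]; simp only [mul_assoc]
  have hmem : ∀ S ∈ powersetCard (N + 1) (range (M + 1)),
      S.image (tr j) ∈ powersetCard (N + 1) (range (M + 1)) := by
    intro S hS
    rw [mem_powersetCard] at hS ⊢
    exact ⟨image_tr_subset (by omega) hS.1, by rw [card_image_tr, hS.2]⟩
  apply Finset.sum_involution (fun S _ => S.image (tr j))
  · intro S hS
    by_cases h1 : j ∈ S
    · by_cases h2 : j + 1 ∈ S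
      · rw [keyz S hS ⟨fun _ => h2, fun _ => h1⟩, keyz _ (hmem S hS) (by
          rw [mem_image_tr, mem_image_tr, tr_self, tr_self']
          exact ⟨fun _ => h1, fun _ => h2⟩), add_zero]
      · exact key S h1 h2
    · by_cases h2 : j + 1 ∈ S
      · have := key (S.image (tr j)) (by rw [mem_image_tr, tr_self]; exact h2)
          (by rw [mem_image_tr, tr_self']; exact h1)
        rw [image_image_tr] at this
        rw [add_comm]; exact this
      · rw [keyz S hS ⟨fun h => absurd h h1, fun h => absurd h h2⟩, keyz _ (hmem S hS) (by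
          rw [mem_image_tr, mem_image_tr, tr_self, tr_self']
          exact ⟨fun h => absurd h h2, fun h => absurd h h1⟩), add_zero]
  · intro S hS hne he
    by_cases hiff : j ∈ S ↔ j + 1 ∈ S
    · exact hne (keyz S hS hiff)
    · apply hiff
      constructor
      · intro h
        rw [← he, mem_image_tr, tr_self]  at h
        exact h
      · intro h
        rw [← he, mem_image_tr, tr_self'] at h
        exact h
  · intro S _; exact image_image_tr S j
  · intro S hS; exact hmem S hS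

/-- inverse of `T_γ` -/
noncomputable def Di (t : ℕ → R) (w : List ℕ) : R :=
  ((w.map (fun i => MulOpposite.op (t i) - (q - q⁻¹) • (1 : Rᵐᵒᵖ))).prod).unop

lemma t_inv (ht : HRel t M) {i : ℕ} (hi : i < M) :
    t i * (t i - (q - q⁻¹) • (1 : R)) = 1 ∧ (t i - (q - q⁻¹) • (1 : R)) * t i = 1 := by
  have := ht.quad i hi
  constructor
  · rw [mul_sub, this, mul_smul_comm, mul_one]; abel
  · rw [sub_mul, this, smul_mul_assoc, one_mul]; abel

lemma Di_spec (ht : HRel t M) (w : List ℕ) (hw : ∀ i ∈ w, i < M) :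
    (w.map t).prod * Di t w = 1 ∧ Di t w * (w.map t).prod = 1 := by
  induction w with
  | nil => simp [Di]
  | cons i w ih =>
    obtain ⟨h1, h2⟩ := ih (fun j hj => hw j (List.mem_cons_of_mem _ hj))
    obtain ⟨h3, h4⟩ := t_inv ht (hw i List.mem_cons_self)
    have hD : Di t (i :: w) = Di t w * (t i - (q - q⁻¹) • (1 : R)) := by
      simp [Di]
    rw [hD, List.map_cons, List.prod_cons]
    constructor
    · calc t i * (w.map t).prod * (Di t w * (t i - (q - q⁻¹) • (1 : R)))
          = t i * ((w.map t).prod * Di t w) * (t i - (q - q⁻¹) • (1 : R)) := by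
            simp only [mul_assoc]
        _ = 1 := by rw [h1, mul_one, h3]
    · calc Di t w * (t i - (q - q⁻¹) • (1 : R)) * (t i * (w.map t).prod)
          = Di t w * ((t i - (q - q⁻¹) • (1 : R)) * t i) * (w.map t).prod := by
            simp only [mul_assoc]
        _ = 1 := by rw [h4, mul_one, h2]

/-- main identity: `e z e = C X`. -/
theorem eze (ht : HRel t M) (hNM : N ≤ M) {J : Set ℕ} (hJ : ∀ j ∈ J, j + 1 < M + 1) {e : R}
    (he : ∀ j ∈ J, e * t j = q • e) (he' : ∀ j ∈ J, t j * e = q • e)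
    {T0 : Finset ℕ} (hT0 : T0 ⊆ range (M + 1)) (hT0c : T0.card = N + 1)
    (hT : ∀ S : Finset ℕ, S ⊆ range (M + 1) → S.card = N + 1 → (∀ j ∈ J, j + 1 ∉ S) → S = T0)
    (hA : ∀ i < N, t i * A = (-q⁻¹ : K) • A) (hA' : ∀ i < N, A * t i = (-q⁻¹ : K) • A) :
    ∃ C : K, C ≠ 0 ∧ e * zz t A N (M + 1) * e =
      C • (e * Dp t T0 (M + 1) * A * Di t (DW T0 (M + 1)) * e) := by
  have hop : ∀ j ∈ J, MulOpposite.op e * MulOpposite.op (t j) = q • MulOpposite.op e := by
    intro j hj
    rw [← MulOpposite.op_mul, he' j hj, MulOpposite.op_smul]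
  have hAop : Sg (fun i => MulOpposite.op (t i)) N (MulOpposite.op A) := by
    intro i hi
    rw [← MulOpposite.op_mul, hA' i hi, MulOpposite.op_smul]
  have hX : A * Di t (DW T0 (M + 1)) * e = A * Dr t T0 (M + 1) * e := by
    have := congrArg MulOpposite.unop (inv_eq ht.op hNM hJ hop hT0 hT0c hT hAop)
    simpa [Di, Dr, mul_assoc] using this
  have hcoef : ∀ S ∈ powersetCard (N + 1) (range (M + 1)), ∃ κ : K,
      (κ = 0 ∨ ∃ k : ℕ, κ = q ^ k) ∧ (S = T0 → κ = 1) ∧
      e * Dp t S (M + 1) * A = κ • (e * Dp t T0 (M + 1) * A) ∧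
      A * Dr t S (M + 1) * e = κ • (A * Dr t T0 (M + 1) * e) := by
    intro S hS
    rw [mem_powersetCard] at hS
    obtain ⟨hS, hc⟩ := hS
    by_cases hST : S = T0
    · subst hST
      exact ⟨1, Or.inr ⟨0, by simp⟩, fun _ => rfl, by simp, by simp⟩
    · rcases dichotomy hJ hT _ S rfl hS hc with h | ⟨k, h⟩
      · refine ⟨0, Or.inl rfl, fun h => absurd h hST, ?_, ?_⟩
        · rw [bad_zero ht hJ he h hS hc A hA, zero_smul]
        · have := congrArg MulOpposite.unop
            (bad_zero ht.op hJ hop h hS hc (MulOpposite.op A) hAop)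
          rw [zero_smul]
          simpa [Dr, mul_assoc] using this
      · refine ⟨q ^ k, Or.inr ⟨k, rfl⟩, fun h => absurd h hST, path_q ht hJ he h A, ?_⟩
        have := congrArg MulOpposite.unop
            (path_q ht.op hJ hop h (MulOpposite.op A))
        simpa [Dr, mul_assoc] using this
  have hcoef' : ∀ S, ∃ κ : K, S ∈ powersetCard (N + 1) (range (M + 1)) →
      (κ = 0 ∨ ∃ k : ℕ, κ = q ^ k) ∧ (S = T0 → κ = 1) ∧
      e * Dp t S (M + 1) * A = κ • (e * Dp t T0 (M + 1) * A) ∧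
      A * Dr t S (M + 1) * e = κ • (A * Dr t T0 (M + 1) * e) := by
    intro S
    by_cases hS : S ∈ powersetCard (N + 1) (range (M + 1))
    · obtain ⟨κ, h⟩ := hcoef S hS
      exact ⟨κ, fun _ => h⟩
    · exact ⟨0, fun h => absurd h hS⟩
  choose κ hκ using hcoef'
  refine ⟨∑ S ∈ powersetCard (N + 1) (range (M + 1)), κ S * κ S, ?_, ?_⟩
  · apply sum_ne_zero _ _ _ T0
    · rw [mem_powersetCard]; exact ⟨hT0, hT0c⟩
    · refine ⟨0, ?_⟩
      rw [(hκ T0 (by rw [mem_powersetCard]; exact ⟨hT0, hT0c⟩)).2.1 rfl]; simp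
    · intro S hS
      rcases (hκ S hS).1 with h | ⟨k, h⟩
      · left; rw [h]; simp
      · right; exact ⟨k + k, by rw [h, pow_add]⟩
  · unfold zz
    rw [mul_sum, sum_mul, Finset.sum_smul]
    apply sum_congr rfl
    intro S hS
    obtain ⟨_, _, h3, h4⟩ := hκ S hS
    unfold aS
    calc e * (Dp t S (M + 1) * A * Dr t S (M + 1)) * e
        = (e * Dp t S (M + 1) * A) * Dr t S (M + 1) * e := by simp only [mul_assoc]
      _ = κ S • (e * Dp t T0 (M + 1) * (A * Dr t S (M + 1) * e)) := by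
          rw [h3]; simp only [smul_mul_assoc, mul_assoc]
      _ = (κ S * κ S) • (e * Dp t T0 (M + 1) * (A * Dr t T0 (M + 1) * e)) := by
          rw [h4, mul_smul_comm, smul_smul]
      _ = _ := by rw [← hX]; simp only [mul_assoc]

end

end Pool.Agent.V11124.HC
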