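import Pool.Agent.V11124.HC.Hk

open Finset

set_option linter.unusedSectionVars false

namespace Pool.Agent.V11124.HC

lemma CW_nil {a b : ℕ} (h : a ≤ b) : CW a b = [] := by
  simp [CW, Nat.sub_eq_zero_of_le h]

lemma CW_succ {a b : ℕ} (h : b ≤ a) : CW (a + 1) b = a :: CW a b := by
  unfold CW
  rw [Nat.succ_sub h, List.range_succ_eq_map, List.map_cons, List.map_map]
  congr 1
  apply List.map_congr_left
  intro r hr
  simp only [Function.comp]
  omega

lemma mem_CW {a b i : ℕ} (h : i ∈ CW a b) : b ≤ i ∧ i < a := by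
  unfold CW at h
  rw [List.mem_map] at h
  obtain ⟨r, hr, rfl⟩ := h
  rw [List.mem_range] at hr
  omega

lemma length_CW (a b : ℕ) : (CW a b).length = a - b := by
  simp [CW]

/-- number of elements of `S` below `n` -/
def cnt (S : Finset ℕ) (n : ℕ) : ℕ := (S.filter (· < n)).card

lemma cnt_zero (S : Finset ℕ) : cnt S 0 = 0 := by
  simp [cnt]

lemma cnt_succ_mem {S : Finset ℕ} {n : ℕ} (h : n ∈ S) : cnt S (n + 1) = cnt S n + 1 := by
  unfold cnt
  have : S.filter (· < n + 1) = insert n (S.filter (· < n)) := by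
    ext x; simp only [mem_filter, mem_insert]
    constructor
    · rintro ⟨h1, h2⟩
      by_cases hx : x = n
      · exact Or.inl hx
      · exact Or.inr ⟨h1, by omega⟩
    · rintro (rfl | ⟨h1, h2⟩)
      · exact ⟨h, by omega⟩
      · exact ⟨h1, by omega⟩
  rw [this, card_insert_of_notMem (by simp)]

lemma cnt_succ_not {S : Finset ℕ} {n : ℕ} (h : n ∉ S) : cnt S (n + 1) = cnt S n := by
  unfold cnt
  congr 1
  ext x; simp only [mem_filter]
  constructor
  · rintro ⟨h1, h2⟩
    refine ⟨h1, ?_⟩
    have : x ≠ n := by rintro rfl; exact h h1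
    omega
  · rintro ⟨h1, h2⟩
    exact ⟨h1, by omega⟩

lemma cnt_le (S : Finset ℕ) (n : ℕ) : cnt S n ≤ n := by
  induction n with
  | zero => rw [cnt_zero]
  | succ n ih =>
    by_cases h : n ∈ S
    · rw [cnt_succ_mem h]; omega
    · rw [cnt_succ_not h]; omega

lemma cnt_mono (S : Finset ℕ) {m n : ℕ} (h : m ≤ n) : cnt S m ≤ cnt S n := by
  unfold cnt
  apply card_le_card
  intro x hx
  simp only [mem_filter] at hx ⊢
  exact ⟨hx.1, by omega⟩

lemma cnt_congr {S S' : Finset ℕ} {n : ℕ} (h : ∀ i < n, (i ∈ S ↔ i ∈ S')) : cnt S n = cnt S' n := by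
  unfold cnt
  congr 1
  ext x; simp only [mem_filter]
  constructor
  · rintro ⟨h1, h2⟩; exact ⟨(h x h2).1 h1, h2⟩
  · rintro ⟨h1, h2⟩; exact ⟨(h x h2).2 h1, h2⟩

lemma cnt_all {S : Finset ℕ} {n : ℕ} (h : S ⊆ range n) : cnt S n = S.card := by
  unfold cnt
  congr 1
  ext x; simp only [mem_filter]
  constructor
  · exact fun h => h.1
  · intro hx; exact ⟨hx, mem_range.mp (h hx)⟩

/-- the word of the minimal length permutation sending `{0..|S|-1}` to `S` (`S ⊆ [0,n)`). -/
def DW (S : Finset ℕ) : ℕ → List ℕ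
  | 0 => []
  | n + 1 => if n ∈ S then DW S n ++ CW n (cnt S n) else DW S n

lemma DW_mem {S : Finset ℕ} {n : ℕ} (h : n ∈ S) : DW S (n + 1) = DW S n ++ CW n (cnt S n) := by
  simp [DW, h]

lemma DW_not {S : Finset ℕ} {n : ℕ} (h : n ∉ S) : DW S (n + 1) = DW S n := by
  simp [DW, h]

lemma DW_congr {S S' : Finset ℕ} {n : ℕ} (h : ∀ i < n, (i ∈ S ↔ i ∈ S')) : DW S n = DW S' n := by
  induction n with
  | zero => rfl
  | succ n ih =>
    have h' : ∀ i < n, (i ∈ S ↔ i ∈ S') := fun i hi => h i (by omega)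
    by_cases hn : n ∈ S
    · rw [DW_mem hn, DW_mem ((h n (by omega)).1 hn), ih h', cnt_congr h']
    · rw [DW_not hn, DW_not (fun hh => hn ((h n (by omega)).2 hh)), ih h']

lemma mem_DW {S : Finset ℕ} {n i : ℕ} (h : i ∈ DW S n) : i + 1 < n := by
  induction n with
  | zero => simp [DW] at h
  | succ n ih =>
    by_cases hn : n ∈ S
    · rw [DW_mem hn, List.mem_append] at h
      rcases h with h | h
      · have := ih h; omega
      · have := mem_CW h; omega
    · rw [DW_not hn] at h
      have := ih h; omega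

lemma length_DW (S : Finset ℕ) (n : ℕ) :
    (DW S n).length + ∑ i ∈ range (cnt S n), i = ∑ i ∈ S.filter (· < n), i := by
  induction n with
  | zero => simp [DW, cnt_zero]
  | succ n ih =>
    by_cases hn : n ∈ S
    · have hf : S.filter (· < n + 1) = insert n (S.filter (· < n)) := by
        ext x; simp only [mem_filter, mem_insert]
        constructor
        · rintro ⟨h1, h2⟩
          by_cases hx : x = n
          · exact Or.inl hx
          · exact Or.inr ⟨h1, by omega⟩
        · rintro (rfl | ⟨h1, h2⟩)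
          · exact ⟨hn, by omega⟩
          · exact ⟨h1, by omega⟩
      rw [DW_mem hn, cnt_succ_mem hn, sum_range_succ, hf, sum_insert (by simp), ← ih,
        List.length_append, length_CW]
      have := cnt_le S n
      omega
    · have hf : S.filter (· < n + 1) = S.filter (· < n) := by
        ext x; simp only [mem_filter]
        constructor
        · rintro ⟨h1, h2⟩
          have : x ≠ n := by rintro rfl; exact hn h1
          exact ⟨h1, by omega⟩
        · rintro ⟨h1, h2⟩; exact ⟨h1, by omega⟩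
      rw [DW_not hn, cnt_succ_not hn, hf, ih]

/-- transposition of `j` and `j+1` on `ℕ` -/
def tr (j i : ℕ) : ℕ := if i = j then j + 1 else if i = j + 1 then j else i

lemma tr_tr (j i : ℕ) : tr j (tr j i) = i := by
  unfold tr; split_ifs <;> omega

lemma tr_inj (j : ℕ) : Function.Injective (tr j) := by
  intro a b h
  have := congrArg (tr j) h
  rwa [tr_tr, tr_tr] at this

lemma tr_self (j : ℕ) : tr j j = j + 1 := by simp [tr]
lemma tr_self' (j : ℕ) : tr j (j + 1) = j := by simp [tr]
lemma tr_of_ne {j i : ℕ} (h1 : i ≠ j) (h2 : i ≠ j + 1) : tr j i = i := by simp [tr, h1, h2]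

lemma mem_image_tr {S : Finset ℕ} {j i : ℕ} : i ∈ S.image (tr j) ↔ tr j i ∈ S := by
  rw [mem_image]
  constructor
  · rintro ⟨a, ha, rfl⟩; rwa [tr_tr]
  · intro h; exact ⟨_, h, tr_tr j i⟩

section
variable {R : Type*} [Ring R] [Algebra K R] {t : ℕ → R} {M : ℕ}

/-- product along `CW` -/
def Cp (t : ℕ → R) (a b : ℕ) : R := ((CW a b).map t).prod
/-- product along `DW` -/
def Dp (t : ℕ → R) (S : Finset ℕ) (n : ℕ) : R := ((DW S n).map t).prod

lemma Cp_nil {a b : ℕ} (h : a ≤ b) : Cp t a b = 1 := by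
  simp [Cp, CW_nil h]

lemma Cp_succ {a b : ℕ} (h : b ≤ a) : Cp t (a + 1) b = t a * Cp t a b := by
  simp [Cp, CW_succ h]

lemma Dp_mem {S : Finset ℕ} {n : ℕ} (h : n ∈ S) :
    Dp t S (n + 1) = Dp t S n * Cp t n (cnt S n) := by
  simp [Dp, Cp, DW_mem h]

lemma Dp_not {S : Finset ℕ} {n : ℕ} (h : n ∉ S) : Dp t S (n + 1) = Dp t S n := by
  simp [Dp, DW_not h]

lemma Dp_congr {S S' : Finset ℕ} {n : ℕ} (h : ∀ i < n, (i ∈ S ↔ i ∈ S')) :
    Dp t S n = Dp t S' n := by
  simp [Dp, DW_congr h]

lemma comm_hi (ht : HRel t M) {j : ℕ} (hj : j < M) (w : List ℕ) (hw : ∀ i ∈ w, i + 1 < j) :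
    t j * (w.map t).prod = (w.map t).prod * t j := by
  have : Commute (t j) (w.map t).prod := by
    apply Commute.list_prod_right
    intro x hx
    rw [List.mem_map] at hx
    obtain ⟨i, hi, rfl⟩ := hx
    exact (ht.comm i j (hw i hi) hj).symm
  exact this

lemma comm_lo (ht : HRel t M) {j : ℕ} (w : List ℕ) (hw : ∀ i ∈ w, j + 1 < i ∧ i < M) :
    t j * (w.map t).prod = (w.map t).prod * t j := by
  have : Commute (t j) (w.map t).prod := by
    apply Commute.list_prod_right
    intro x hx
    rw [List.mem_map] at hx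
    obtain ⟨i, hi, rfl⟩ := hx
    exact ht.comm j i (hw i hi).1 (hw i hi).2
  exact this

lemma shift_C (ht : HRel t M) {j b : ℕ} (hb : b ≤ j) {a : ℕ} (ha : j + 1 < a) (haM : a ≤ M) :
    t j * Cp t a b = Cp t a b * t (j + 1) := by
  induction a with
  | zero => omega
  | succ a ih =>
    rw [Cp_succ (by omega)]
    by_cases hja : j + 1 = a
    · subst hja
      have hc : t (j + 1) * Cp t j b = Cp t j b * t (j + 1) :=
        comm_hi ht (by omega) _ (fun i hi => by have := mem_CW hi; omega)
      have hbr := ht.braid j (by omega)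
      rw [Cp_succ hb]
      calc t j * (t (j + 1) * (t j * Cp t j b))
          = (t j * t (j + 1) * t j) * Cp t j b := by simp only [mul_assoc]
        _ = t (j + 1) * (t j * (t (j + 1) * Cp t j b)) := by rw [hbr]; simp only [mul_assoc]
        _ = _ := by rw [hc]; simp only [mul_assoc]
    · rw [← mul_assoc, ht.comm j a (by omega) (by omega), mul_assoc, ih (by omega) (by omega),
        ← mul_assoc]

lemma shift_prod (ht : HRel t M) {j k : ℕ} (hjM : j + 1 ≤ M) {a : ℕ} (ha : a ≤ j) :
    Cp t a k * Cp t (j + 1) k = Cp t (j + 1) k * Cp t (a + 1) (k + 1) := by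
  induction a with
  | zero =>
    rw [Cp_nil (a := 0) (b := k) (by omega), Cp_nil (a := 0 + 1) (b := k + 1) (by omega), one_mul,
      mul_one]
  | succ a ih =>
    by_cases hk : k ≤ a
    · rw [Cp_succ hk, mul_assoc, ih (by omega), ← mul_assoc, shift_C ht hk (by omega) hjM,
        mul_assoc, Cp_succ (a := a + 1) (by omega)]
    · rw [Cp_nil (a := a + 1) (b := k) (by omega),
        Cp_nil (a := a + 1 + 1) (b := k + 1) (by omega), one_mul, mul_one]

/-- both out -/
lemma D_out (ht : HRel t M) {S : Finset ℕ} {j : ℕ} (h1 : j ∉ S) (h2 : j + 1 ∉ S) {n : ℕ}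
    (hn : j + 2 ≤ n) (hnM : n ≤ M + 1) :
    cnt S n ≤ j + (cnt S n - cnt S j) ∧ j + (cnt S n - cnt S j) + 1 < n ∧
      t j * Dp t S n = Dp t S n * t (j + (cnt S n - cnt S j)) := by
  induction n with
  | zero => omega
  | succ n ih =>
    by_cases hjn : j + 1 = n
    · subst hjn
      have e : cnt S (j + 1 + 1) = cnt S j := by rw [cnt_succ_not h2, cnt_succ_not h1]
      rw [e, Nat.sub_self, add_zero]
      refine ⟨cnt_le S j, by omega, ?_⟩
      rw [Dp_not h2, Dp_not h1]
      exact comm_hi ht (by omega) _ (fun i hi => by have := mem_DW hi; omega)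
    · obtain ⟨hj1, hj2, hj3⟩ := ih (by omega) (by omega)
      have hm := cnt_mono S (m := j) (n := n) (by omega)
      by_cases hnS : n ∈ S
      · have e : j + (cnt S (n + 1) - cnt S j) = j + (cnt S n - cnt S j) + 1 := by
          rw [cnt_succ_mem hnS]; omega
        rw [e, cnt_succ_mem hnS]
        refine ⟨by omega, by omega, ?_⟩
        rw [Dp_mem hnS, ← mul_assoc, hj3, mul_assoc, shift_C ht hj1 hj2 (by omega), ← mul_assoc]
      · rw [cnt_succ_not hnS]
        refine ⟨hj1, by omega, ?_⟩
        rw [Dp_not hnS]; exact hj3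

/-- both in -/
lemma D_in (ht : HRel t M) {S : Finset ℕ} {j : ℕ} (h1 : j ∈ S) (h2 : j + 1 ∈ S) {n : ℕ}
    (hn : j + 2 ≤ n) (hnM : n ≤ M + 1) :
    t j * Dp t S n = Dp t S n * t (cnt S j) := by
  induction n with
  | zero => omega
  | succ n ih =>
    by_cases hjn : j + 1 = n
    · subst hjn
      rw [Dp_mem h2, Dp_mem h1, cnt_succ_mem h1]
      have hc := cnt_le S j
      have e1 : t j * Dp t S j = Dp t S j * t j :=
        comm_hi ht (by omega) _ (fun i hi => by have := mem_DW hi; omega)
      -- t j * (D * C j k * C (j+1) (k+1)) = D * (t j * C j k) * C (j+1) (k+1)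
      have e2 : t j * Cp t j (cnt S j) = Cp t (j + 1) (cnt S j) := (Cp_succ hc).symm
      have e3 := shift_prod ht (k := cnt S j) (j := j) (by omega) (a := j) le_rfl
      have e4 : Cp t (j + 1) (cnt S j) = Cp t (j + 1) (cnt S j + 1) * t (cnt S j) := by
        have hlast : ∀ a k : ℕ, k < a → Cp t a k = Cp t a (k + 1) * t k := by
          intro a k hk
          induction a with
          | zero => omega
          | succ a iha =>
            by_cases hka : k = a
            · subst hka
              rw [Cp_succ le_rfl, Cp_nil le_rfl, Cp_nil (by omega), mul_one, one_mul]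
            · rw [Cp_succ (by omega), Cp_succ (by omega), iha (by omega), mul_assoc]
        exact hlast _ _ (by omega)
      calc t j * (Dp t S j * Cp t j (cnt S j) * Cp t (j + 1) (cnt S j + 1))
          = (t j * Dp t S j) * Cp t j (cnt S j) * Cp t (j + 1) (cnt S j + 1) := by
            simp only [mul_assoc]
        _ = Dp t S j * ((t j * Cp t j (cnt S j)) * Cp t (j + 1) (cnt S j + 1)) := by
            rw [e1]; simp only [mul_assoc]
        _ = Dp t S j * (Cp t j (cnt S j) * Cp t (j + 1) (cnt S j)) := by rw [e2, e3]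
        _ = Dp t S j * (Cp t j (cnt S j) * (Cp t (j + 1) (cnt S j + 1) * t (cnt S j))) := by
            rw [← e4]
        _ = _ := by simp only [mul_assoc]
    · by_cases hnS : n ∈ S
      · rw [Dp_mem hnS, ← mul_assoc, ih (by omega) (by omega), mul_assoc, mul_assoc]
        congr 1
        have h3 : cnt S j + 2 ≤ cnt S n := by
          have a1 := cnt_succ_mem h1
          have a2 := cnt_succ_mem h2
          have a3 := cnt_mono S (m := j + 1 + 1) (n := n) (by omega)
          omega
        exact comm_lo ht _ (fun i hi => by have := mem_CW hi; omega)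
      · rw [Dp_not hnS]; exact ih (by omega) (by omega)

/-- exchange -/
lemma D_swap (ht : HRel t M) {S S' : Finset ℕ} {j : ℕ} (h1 : j ∈ S) (h2 : j + 1 ∉ S)
    (hS' : ∀ i, i ∈ S' ↔ tr j i ∈ S) {n : ℕ}
    (hn : j + 2 ≤ n) (hnM : n ≤ M + 1) :
    Dp t S' n = t j * Dp t S n ∧ cnt S' n = cnt S n := by
  induction n with
  | zero => omega
  | succ n ih =>
    by_cases hjn : j + 1 = n
    · subst hjn
      have h1' : j ∉ S' := by rw [hS', tr_self]; exact h2
      have h2' : j + 1 ∈ S' := by rw [hS', tr_self']; exact h1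
      have hlow : ∀ i < j, (i ∈ S' ↔ i ∈ S) := by
        intro i hi; rw [hS', tr_of_ne (by omega) (by omega)]
      have hcn : cnt S' j = cnt S j := cnt_congr hlow
      rw [Dp_mem h2', Dp_not h1', Dp_not h2, Dp_mem h1, cnt_succ_mem h2', cnt_succ_not h1',
        cnt_succ_not h2, cnt_succ_mem h1, hcn, Dp_congr hlow]
      refine ⟨?_, rfl⟩
      rw [Cp_succ (cnt_le S j), ← mul_assoc, ← mul_assoc]
      congr 1
      exact (comm_hi ht (by omega) _ (fun i hi => by have := mem_DW hi; omega)).symm
    · obtain ⟨i1, i2⟩ := ih (by omega) (by omega)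
      have hmem : n ∈ S' ↔ n ∈ S := by rw [hS', tr_of_ne (by omega) (by omega)]
      by_cases hnS : n ∈ S
      · rw [Dp_mem hnS, Dp_mem (hmem.2 hnS), i1, i2, mul_assoc, cnt_succ_mem hnS,
          cnt_succ_mem (hmem.2 hnS), i2]
        exact ⟨rfl, rfl⟩
      · have hnS' : n ∉ S' := fun h => hnS (hmem.1 h)
        rw [Dp_not hnS, Dp_not hnS', i1, cnt_succ_not hnS, cnt_succ_not hnS', i2]
        exact ⟨rfl, rfl⟩

end

end Pool.Agent.V11124.HC
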