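import Mathlib

/-! Definitions for the centrality problem of `X^μ_N` in `e_μ H(S_n) e_μ`. -/

open Equiv

namespace Pool.Agent.V11124.HC

/-- The simple transposition of `S_n = Perm (Fin n)` exchanging `i` and `i + 1`
(0-based; it is `s_{i+1}` of the text).  It is the identity if `i + 1 ≥ n`. -/
def sw (n i : ℕ) : Perm (Fin n) :=
  if h : i + 1 < n then Equiv.swap ⟨i, by omega⟩ ⟨i + 1, h⟩ else 1

/-- `w` is a word in the simple transpositions of `S_n` whose product is `σ`. -/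
def IsWord (n : ℕ) (w : List ℕ) (σ : Perm (Fin n)) : Prop :=
  (∀ i ∈ w, i + 1 < n) ∧ (w.map (sw n)).prod = σ

/-- Coxeter length of `σ ∈ S_n`. -/
noncomputable def len (n : ℕ) (σ : Perm (Fin n)) : ℕ :=
  sInf {k | ∃ w, IsWord n w σ ∧ w.length = k}

/-- A reduced word of `σ ∈ S_n` (the product below does not depend on the choice). -/
noncomputable def redWord (n : ℕ) (σ : Perm (Fin n)) : List ℕ :=
  Classical.epsilon fun w => IsWord n w σ ∧ w.length = len n σ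

/-- The product `t_{i_1} ⋯ t_{i_k}` over a reduced word of `σ`. -/
noncomputable def Tw {R : Type*} [Monoid R] (t : ℕ → R) (n : ℕ) (σ : Perm (Fin n)) : R :=
  ((redWord n σ).map t).prod

/-- The field `ℂ(q)`. -/
abbrev K : Type := RatFunc ℂ

/-- The indeterminate `q`. -/
noncomputable def q : K := RatFunc.X

/-- The defining relations of `H(S_n)`; the generator `i : Fin (n-1)` is `T_{i+1}` of the text. -/
inductive Rel (n : ℕ) :
    FreeAlgebra K (Fin (n - 1)) → FreeAlgebra K (Fin (n - 1)) → Prop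
  | braid (i j : Fin (n - 1)) (h : (j : ℕ) = i + 1) :
      Rel n (FreeAlgebra.ι K i * FreeAlgebra.ι K j * FreeAlgebra.ι K i)
        (FreeAlgebra.ι K j * FreeAlgebra.ι K i * FreeAlgebra.ι K j)
  | comm (i j : Fin (n - 1)) (h : (i : ℕ) + 1 < j) :
      Rel n (FreeAlgebra.ι K i * FreeAlgebra.ι K j) (FreeAlgebra.ι K j * FreeAlgebra.ι K i)
  | quad (i : Fin (n - 1)) :
      Rel n ((FreeAlgebra.ι K i - algebraMap K _ q) *
        (FreeAlgebra.ι K i + algebraMap K _ q⁻¹)) 0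

/-- The Iwahori-Hecke algebra `H(S_n)` over `ℂ(q)`, by generators and relations. -/
abbrev Hecke (n : ℕ) : Type := RingQuot (Rel n)

/-- The generator of `H(S_n)` with 0-based index `i` (`T_{i+1}` of the text), `1` if there is
no such generator. -/
noncomputable def T (n i : ℕ) : Hecke n :=
  if h : i < n - 1 then RingQuot.mkAlgHom K (Rel n) (FreeAlgebra.ι K ⟨i, h⟩) else 1

/-- `m_k = μ_1 + ⋯ + μ_k`. -/
def msum {N : ℕ} (μ : Fin (N + 1) → ℕ) (k : ℕ) : ℕ :=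
  ∑ j : Fin (N + 1), if (j : ℕ) < k then μ j else 0

/-- `n = μ_1 + ⋯ + μ_{N+1}`. -/
def tot {N : ℕ} (μ : Fin (N + 1) → ℕ) : ℕ := ∑ j, μ j

/-- The set `J = {1,…,n-1} \ {m_1,…,m_N}`, 0-based: `i` stands for `i + 1`. -/
def Jset {N : ℕ} (μ : Fin (N + 1) → ℕ) : Set ℕ :=
  {i | i + 1 < tot μ ∧ ∀ k, 1 ≤ k → k ≤ N → i + 1 ≠ msum μ k}

/-- The Young subgroup `S_μ`, generated by the `s_i`, `i ∈ J`. -/
def Smu {N : ℕ} (μ : Fin (N + 1) → ℕ) : Subgroup (Perm (Fin (tot μ))) :=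
  Subgroup.closure {s | ∃ i ∈ Jset μ, s = sw (tot μ) i}

open Classical in
/-- The idempotent `e_μ`. -/
noncomputable def emu {N : ℕ} (μ : Fin (N + 1) → ℕ) : Hecke (tot μ) :=
  (∑ σ ∈ (Finset.univ.filter fun σ : Perm (Fin (tot μ)) => σ ∈ Smu μ),
      q ^ (2 * len (tot μ) σ))⁻¹ •
    ∑ σ ∈ (Finset.univ.filter fun σ : Perm (Fin (tot μ)) => σ ∈ Smu μ),
      q ^ (len (tot μ) σ) • Tw (T (tot μ)) (tot μ) σ

/-- `C t a b = t_{a-1} t_{a-2} ⋯ t_b` (0-based indices), empty if `a ≤ b`. -/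
def CW (a b : ℕ) : List ℕ := (List.range (a - b)).map fun r => a - 1 - r

/-- `T_{γ_μ} = ∏_{k=1}^N (T_{m_k} T_{m_k - 1} ⋯ T_{k+1})`, factors ordered from left to right.
In 0-based indices the `k`-th factor is the product of `T i` for `i = m_k - 1, …, k`. -/
noncomputable def Tgamma {N : ℕ} (μ : Fin (N + 1) → ℕ) : Hecke (tot μ) :=
  ((List.range N).map fun k =>
    ((CW (msum μ (k + 1)) (k + 1)).map (T (tot μ))).prod).prod

/-- The `q`-antisymmetriser `A_{N+1}`, viewed in `H(S_n)`. -/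
noncomputable def Aanti (N n : ℕ) : Hecke n :=
  ∑ σ : Perm (Fin (N + 1)),
    ((-1) ^ (len (N + 1) σ) *
      q ^ (((N * (N + 1) / 2 : ℕ) : ℤ) - (len (N + 1) σ : ℤ))) • Tw (T n) (N + 1) σ

/-- `X^μ_N = e_μ T_{γ_μ} A_{N+1} T_{γ_μ}⁻¹ e_μ`. -/
noncomputable def Xmu {N : ℕ} (μ : Fin (N + 1) → ℕ) : Hecke (tot μ) :=
  emu μ * Tgamma μ * Aanti N (tot μ) * Ring.inverse (Tgamma μ) * emu μ

end Pool.Agent.V11124.HC
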