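import Pool.Agent.V11124.HC.Perm

open Equiv Finset

namespace Pool.Agent.V11124.HC

/-- Hecke relations for `t 0, …, t (M-1)` -/
structure HRel {R : Type*} [Ring R] [Algebra K R] (t : ℕ → R) (M : ℕ) : Prop where
  braid : ∀ i, i + 1 < M → t i * t (i + 1) * t i = t (i + 1) * t i * t (i + 1)
  comm : ∀ i j, i + 1 < j → j < M → t i * t j = t j * t i
  quad : ∀ i, i < M → t i * t i = 1 + (q - q⁻¹) • t i

section
variable {R : Type*} [Ring R] [Algebra K R] {t : ℕ → R} {n : ℕ}

lemma asc_far {i j : ℕ} (hi : i + 1 < n) (hj : j + 1 < n) (hij : i + 1 < j ∨ j + 1 < i)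
    (σ : Perm (Fin n)) : Asc i hi (sw n j * σ) ↔ Asc i hi σ := by
  unfold Asc
  rw [mul_inv_rev, sw_inv, Perm.mul_apply, Perm.mul_apply]
  have h1 : sw n j ⟨i, Nat.lt_of_succ_lt hi⟩ = ⟨i, Nat.lt_of_succ_lt hi⟩ := by
    apply Fin.ext; rw [sw_val hj]; simp only; split_ifs <;> omega
  have h2 : sw n j ⟨i + 1, hi⟩ = ⟨i + 1, hi⟩ := by
    apply Fin.ext; rw [sw_val hj]; simp only; split_ifs <;> omega
  rw [h1, h2]

lemma sw_comm {i j : ℕ} (hi : i + 1 < n) (hj : j + 1 < n) (hij : i + 1 < j ∨ j + 1 < i) :
    sw n i * sw n j = sw n j * sw n i := by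
  ext x
  rw [Perm.mul_apply, Perm.mul_apply, sw_val hi, sw_val hj, sw_val hj, sw_val hi]
  split_ifs <;> omega

lemma sw_braid {i : ℕ} (hi : i + 1 + 1 < n) :
    sw n i * sw n (i + 1) * sw n i = sw n (i + 1) * sw n i * sw n (i + 1) := by
  have h1 : i + 1 < n := by omega
  ext x
  simp only [Perm.mul_apply]
  rw [sw_val h1, sw_val hi, sw_val h1, sw_val hi, sw_val h1, sw_val hi]
  split_ifs <;> omega

/-- adjacent descents: if `i`, `i+1` are both left descents, then after `sw i` still a descent at
`i+1`, and then at `i`. -/
lemma desc_adj1 {i : ℕ} (hi : i + 1 + 1 < n) (σ : Perm (Fin n))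
    (h1 : ¬ Asc i (by omega) σ) (h2 : ¬ Asc (i + 1) hi σ) :
    ¬ Asc (i + 1) hi (sw n i * σ) ∧ ¬ Asc i (by omega) (sw n (i + 1) * (sw n i * σ)) := by
  have hi' : i + 1 < n := by omega
  unfold Asc at *
  simp only [mul_inv_rev, sw_inv, Perm.mul_apply]
  have e1 : sw n i ⟨i + 1, hi'⟩ = ⟨i, Nat.lt_of_succ_lt hi'⟩ := by
    apply Fin.ext; rw [sw_val hi']; simp
  have e2 : sw n i ⟨i + 1 + 1, hi⟩ = ⟨i + 1 + 1, hi⟩ := by
    apply Fin.ext; rw [sw_val hi']; simp only; split_ifs <;> omega
  have e3 : sw n (i + 1) ⟨i, Nat.lt_of_succ_lt hi'⟩ = ⟨i, Nat.lt_of_succ_lt hi'⟩ := by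
    apply Fin.ext; rw [sw_val hi]; simp only; split_ifs <;> omega
  have e4 : sw n (i + 1) ⟨i + 1, hi'⟩ = ⟨i + 1 + 1, hi⟩ := by
    apply Fin.ext; rw [sw_val hi]; simp
  have e5 : sw n i ⟨i, Nat.lt_of_succ_lt hi'⟩ = ⟨i + 1, hi'⟩ := by
    apply Fin.ext; rw [sw_val hi']; simp
  rw [e1, e2, e3, e4, e5, e2]
  constructor
  · intro h
    exact h1 (lt_of_lt_of_le h (not_lt.mp h2))
  · exact h2

lemma desc_adj2 {i : ℕ} (hi : i + 1 + 1 < n) (σ : Perm (Fin n))
    (h1 : ¬ Asc i (by omega) σ) (h2 : ¬ Asc (i + 1) hi σ) :
    ¬ Asc i (by omega) (sw n (i + 1) * σ) ∧ ¬ Asc (i + 1) hi (sw n i * (sw n (i + 1) * σ)) := by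
  have hi' : i + 1 < n := by omega
  unfold Asc at *
  simp only [mul_inv_rev, sw_inv, Perm.mul_apply]
  have e1 : sw n i ⟨i + 1, hi'⟩ = ⟨i, Nat.lt_of_succ_lt hi'⟩ := by
    apply Fin.ext; rw [sw_val hi']; simp
  have e2 : sw n i ⟨i + 1 + 1, hi⟩ = ⟨i + 1 + 1, hi⟩ := by
    apply Fin.ext; rw [sw_val hi']; simp only; split_ifs <;> omega
  have e3 : sw n (i + 1) ⟨i, Nat.lt_of_succ_lt hi'⟩ = ⟨i, Nat.lt_of_succ_lt hi'⟩ := by
    apply Fin.ext; rw [sw_val hi]; simp only; split_ifs <;> omega
  have e4 : sw n (i + 1) ⟨i + 1, hi'⟩ = ⟨i + 1 + 1, hi⟩ := by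
    apply Fin.ext; rw [sw_val hi]; simp
  have e6 : sw n (i + 1) ⟨i + 1 + 1, hi⟩ = ⟨i + 1, hi'⟩ := by
    apply Fin.ext; rw [sw_val hi]; simp
  rw [e1, e2, e3, e4, e6]
  constructor
  · intro h
    exact h2 (lt_of_le_of_lt (not_lt.mp h1) h)
  · exact h1

/-- Matsumoto's theorem for `S_n` (for the Hecke relations). -/
theorem matsumoto (ht : HRel t (n - 1)) (k : ℕ) : ∀ (σ : Perm (Fin n)) (w w' : List ℕ),
    IsWord n w σ → IsWord n w' σ → w.length = k → w'.length = k → il σ = k →
    (w.map t).prod = (w'.map t).prod := by
  induction k using Nat.strong_induction_on with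
  | _ k ih =>
    intro σ w w' hw hw' hl hl' hk
    match w, w' with
    | [], [] => rfl
    | [], (j :: v) => simp at hl hl'; omega
    | (i :: u), [] => simp at hl hl'; omega
    | (i :: u), (j :: v) =>
      have hi : i + 1 < n := hw.1 i List.mem_cons_self
      have hj : j + 1 < n := hw'.1 j List.mem_cons_self
      have hu : IsWord n u (sw n i * σ) := by
        refine ⟨fun a ha => hw.1 a (List.mem_cons_of_mem _ ha), ?_⟩
        rw [← hw.2, List.map_cons, List.prod_cons, sw_mul_cancel]
      have hv : IsWord n v (sw n j * σ) := by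
        refine ⟨fun a ha => hw'.1 a (List.mem_cons_of_mem _ ha), ?_⟩
        rw [← hw'.2, List.map_cons, List.prod_cons, sw_mul_cancel]
      rw [List.length_cons] at hl hl'
      have hdi : ¬ Asc i hi σ := by
        intro ha
        have h1 := il_sw_asc hi σ ha
        have h2 := il_le_length u _ hu
        omega
      have hdj : ¬ Asc j hj σ := by
        intro ha
        have h1 := il_sw_asc hj σ ha
        have h2 := il_le_length v _ hv
        omega
      have hli := il_sw_desc hi σ hdi
      have hlj := il_sw_desc hj σ hdj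
      rw [List.map_cons, List.map_cons, List.prod_cons, List.prod_cons]
      -- adjacent case as a separate claim
      have adj : ∀ (i j : ℕ) (u v : List ℕ) (hi : i + 1 < n) (hj : j + 1 < n), j = i + 1 →
          IsWord n u (sw n i * σ) → IsWord n v (sw n j * σ) → u.length + 1 = k →
          v.length + 1 = k → ¬ Asc i hi σ → ¬ Asc j hj σ →
          t i * (u.map t).prod = t j * (v.map t).prod := by
        intro i j u v hi hj hij hu hv hl hl' hdi hdj
        subst hij
        obtain ⟨a1, a2⟩ := desc_adj1 hj σ hdi hdj
        obtain ⟨b1, b2⟩ := desc_adj2 hj σ hdi hdj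
        have l1 := il_sw_desc hi σ hdi
        have l2 := il_sw_desc hj _ a1
        have l3 := il_sw_desc hi _ a2
        have l1' := il_sw_desc hj σ hdj
        obtain ⟨x, hx, hxl⟩ := exists_word (sw n i * (sw n (i + 1) * (sw n i * σ)))
        have e1 : (u.map t).prod = t (i + 1) * (t i * (x.map t).prod) := by
          have hh : IsWord n ((i + 1) :: i :: x) (sw n i * σ) := by
            refine ⟨?_, ?_⟩
            · intro a ha
              simp only [List.mem_cons] at ha
              rcases ha with rfl | rfl | ha
              · exact hj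
              · exact hi
              · exact hx.1 a ha
            · rw [List.map_cons, List.map_cons, List.prod_cons, List.prod_cons, hx.2,
                sw_mul_cancel, sw_mul_cancel]
          have := ih (k - 1) (by omega) _ u ((i + 1) :: i :: x) hu hh (by omega)
            (by simp only [List.length_cons]; omega) (by omega)
          rw [this, List.map_cons, List.map_cons, List.prod_cons, List.prod_cons]
        have e2 : (v.map t).prod = t i * (t (i + 1) * (x.map t).prod) := by
          have hh : IsWord n (i :: (i + 1) :: x) (sw n (i + 1) * σ) := by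
            refine ⟨?_, ?_⟩
            · intro a ha
              simp only [List.mem_cons] at ha
              rcases ha with rfl | rfl | ha
              · exact hi
              · exact hj
              · exact hx.1 a ha
            · rw [List.map_cons, List.map_cons, List.prod_cons, List.prod_cons, hx.2]
              have hb := sw_braid (n := n) hj
              calc sw n i * (sw n (i + 1) * (sw n i * (sw n (i + 1) * (sw n i * σ))))
                  = sw n i * sw n (i + 1) * sw n i * (sw n (i + 1) * (sw n i * σ)) := by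
                    simp only [mul_assoc]
                _ = sw n (i + 1) * sw n i * sw n (i + 1) * (sw n (i + 1) * (sw n i * σ)) := by
                    rw [hb]
                _ = sw n (i + 1) * σ := by
                    simp only [mul_assoc]
                    rw [sw_mul_cancel, sw_mul_cancel]
          have := ih (k - 1) (by omega) _ v (i :: (i + 1) :: x) hv hh (by omega)
            (by simp only [List.length_cons]; omega) (by omega)
          rw [this, List.map_cons, List.map_cons, List.prod_cons, List.prod_cons]
        rw [e1, e2]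
        have hb := ht.braid i (by omega)
        calc t i * (t (i + 1) * (t i * (x.map t).prod))
            = t i * t (i + 1) * t i * (x.map t).prod := by simp only [mul_assoc]
          _ = t (i + 1) * t i * t (i + 1) * (x.map t).prod := by rw [hb]
          _ = _ := by simp only [mul_assoc]
      rcases lt_trichotomy i j with hij | hij | hij
      · by_cases hadj : j = i + 1
        · exact adj i j u v hi hj hadj hu hv hl hl' hdi hdj
        · have hfar : i + 1 < j := by omega
          have ha : ¬ Asc j hj (sw n i * σ) := by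
            rw [asc_far hj hi (Or.inr hfar)]; exact hdj
          have l2 := il_sw_desc hj _ ha
          obtain ⟨x, hx, hxl⟩ := exists_word (sw n j * (sw n i * σ))
          have e1 : (u.map t).prod = t j * (x.map t).prod := by
            have hh : IsWord n (j :: x) (sw n i * σ) := by
              refine ⟨?_, ?_⟩
              · intro a ha
                rcases List.mem_cons.mp ha with rfl | ha
                · exact hj
                · exact hx.1 a ha
              · rw [List.map_cons, List.prod_cons, hx.2, sw_mul_cancel]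
            have := ih (k - 1) (by omega) _ u (j :: x) hu hh (by omega)
              (by simp only [List.length_cons]; omega) (by omega)
            rw [this, List.map_cons, List.prod_cons]
          have e2 : (v.map t).prod = t i * (x.map t).prod := by
            have hh : IsWord n (i :: x) (sw n j * σ) := by
              refine ⟨?_, ?_⟩
              · intro a ha
                rcases List.mem_cons.mp ha with rfl | ha
                · exact hi
                · exact hx.1 a ha
              · rw [List.map_cons, List.prod_cons, hx.2, ← mul_assoc, ← mul_assoc,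
                  sw_comm hi hj (Or.inl hfar), mul_assoc, mul_assoc, sw_mul_cancel]
            have := ih (k - 1) (by omega) _ v (i :: x) hv hh (by omega)
              (by simp only [List.length_cons]; omega) (by omega)
            rw [this, List.map_cons, List.prod_cons]
          rw [e1, e2, ← mul_assoc, ← mul_assoc, ht.comm i j hfar (by omega)]
      · subst hij
        rw [ih (k - 1) (by omega) _ u v hu hv (by omega) (by omega) (by omega)]
      · by_cases hadj : i = j + 1
        · exact (adj j i v u hj hi hadj hv hu hl' hl hdj hdi).symm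
        · have hfar : j + 1 < i := by omega
          have ha : ¬ Asc j hj (sw n i * σ) := by
            rw [asc_far hj hi (Or.inl hfar)]; exact hdj
          have l2 := il_sw_desc hj _ ha
          obtain ⟨x, hx, hxl⟩ := exists_word (sw n j * (sw n i * σ))
          have e1 : (u.map t).prod = t j * (x.map t).prod := by
            have hh : IsWord n (j :: x) (sw n i * σ) := by
              refine ⟨?_, ?_⟩
              · intro a ha
                rcases List.mem_cons.mp ha with rfl | ha
                · exact hj
                · exact hx.1 a ha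
              · rw [List.map_cons, List.prod_cons, hx.2, sw_mul_cancel]
            have := ih (k - 1) (by omega) _ u (j :: x) hu hh (by omega)
              (by simp only [List.length_cons]; omega) (by omega)
            rw [this, List.map_cons, List.prod_cons]
          have e2 : (v.map t).prod = t i * (x.map t).prod := by
            have hh : IsWord n (i :: x) (sw n j * σ) := by
              refine ⟨?_, ?_⟩
              · intro a ha
                rcases List.mem_cons.mp ha with rfl | ha
                · exact hi
                · exact hx.1 a ha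
              · rw [List.map_cons, List.prod_cons, hx.2, ← mul_assoc, ← mul_assoc,
                  sw_comm hi hj (Or.inr hfar), mul_assoc, mul_assoc, sw_mul_cancel]
            have := ih (k - 1) (by omega) _ v (i :: x) hv hh (by omega)
              (by simp only [List.length_cons]; omega) (by omega)
            rw [this, List.map_cons, List.prod_cons]
          rw [e1, e2, ← mul_assoc, ← mul_assoc, ht.comm j i hfar (by omega)]

/-- any reduced word computes `Tw`. -/
lemma Tw_word (ht : HRel t (n - 1)) (σ : Perm (Fin n)) (w : List ℕ) (hw : IsWord n w σ)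
    (hl : w.length = il σ) : Tw t n σ = (w.map t).prod := by
  obtain ⟨h1, h2⟩ := redWord_spec σ
  exact matsumoto ht (il σ) σ _ _ h1 hw h2 hl rfl

lemma Tw_asc (ht : HRel t (n - 1)) {i : ℕ} (hi : i + 1 < n) (σ : Perm (Fin n)) (ha : Asc i hi σ) :
    Tw t n (sw n i * σ) = t i * Tw t n σ := by
  obtain ⟨h1, h2⟩ := redWord_spec σ
  rw [Tw_word ht (sw n i * σ) (i :: redWord n σ), List.map_cons, List.prod_cons]
  · rfl
  · refine ⟨?_, ?_⟩
    · intro a ha
      rcases List.mem_cons.mp ha with rfl | ha
      · exact hi
      · exact h1.1 a ha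
    · rw [List.map_cons, List.prod_cons, h1.2]
  · rw [List.length_cons, h2, il_sw_asc hi σ ha]

lemma isWord_reverse {w : List ℕ} {σ : Perm (Fin n)} (h : IsWord n w σ) :
    IsWord n w.reverse σ⁻¹ := by
  refine ⟨fun i hi => h.1 i (List.mem_reverse.mp hi), ?_⟩
  rw [← h.2, List.prod_inv_reverse, List.map_reverse, List.map_map]
  congr 2
  apply List.map_congr_left
  intro a _
  simp [sw_inv]

lemma il_inv (σ : Perm (Fin n)) : il σ⁻¹ = il σ := by
  have key : ∀ τ : Perm (Fin n), il τ⁻¹ ≤ il τ := by
    intro τ
    obtain ⟨w, hw, hl⟩ := exists_word τ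
    have := il_le_length _ _ (isWord_reverse hw)
    rw [List.length_reverse, hl] at this
    exact this
  apply le_antisymm (key σ)
  have := key σ⁻¹
  rwa [inv_inv] at this

lemma HRel.op (ht : HRel t n) : HRel (fun i => MulOpposite.op (t i)) n := by
  constructor
  · intro i hi
    rw [← MulOpposite.op_mul, ← MulOpposite.op_mul, ← MulOpposite.op_mul, ← MulOpposite.op_mul,
      ← mul_assoc, ← mul_assoc, ht.braid i hi]
  · intro i j hij hj
    rw [← MulOpposite.op_mul, ← MulOpposite.op_mul, ht.comm i j hij hj]
  · intro i hi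
    rw [← MulOpposite.op_mul, ht.quad i hi]
    simp

lemma op_prod_map (w : List ℕ) :
    MulOpposite.op ((w.map t).prod) = ((w.reverse.map fun i => MulOpposite.op (t i))).prod := by
  rw [MulOpposite.op_list_prod, List.map_map, ← List.map_reverse]
  rfl

lemma Tw_op (ht : HRel t (n - 1)) (σ : Perm (Fin n)) :
    Tw (fun i => MulOpposite.op (t i)) n σ⁻¹ = MulOpposite.op (Tw t n σ) := by
  obtain ⟨h1, h2⟩ := redWord_spec σ
  rw [Tw_word ht.op σ⁻¹ (redWord n σ).reverse (isWord_reverse h1)
    (by rw [List.length_reverse, h2, il_inv])]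
  unfold Tw
  rw [op_prod_map]

/-- the weighted sum over a set closed under `s_j`. -/
lemma t_mul_sum (ht : HRel t (n - 1)) (c : K) (hc : c * c = 1 + c * (q - q⁻¹))
    (S : Finset (Perm (Fin n))) {j : ℕ} (hj : j + 1 < n)
    (hS : ∀ σ ∈ S, sw n j * σ ∈ S) :
    t j * ∑ σ ∈ S, c ^ il σ • Tw t n σ = c • ∑ σ ∈ S, c ^ il σ • Tw t n σ := by
  rw [← sub_eq_zero, Finset.mul_sum, Finset.smul_sum, ← Finset.sum_sub_distrib]
  have key : ∀ σ, Asc j hj σ → (t j * c ^ il σ • Tw t n σ - c • c ^ il σ • Tw t n σ) +
      (t j * c ^ il (sw n j * σ) • Tw t n (sw n j * σ) -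
        c • c ^ il (sw n j * σ) • Tw t n (sw n j * σ)) = 0 := by
    intro σ ha
    rw [Tw_asc ht hj σ ha, il_sw_asc hj σ ha]
    have hq := ht.quad j (by omega)
    simp only [Algebra.mul_smul_comm, smul_smul]
    rw [← mul_assoc (t j) (t j), hq, add_mul, one_mul, Algebra.smul_mul_assoc, smul_add, smul_smul]
    have h2 : c * c ^ (il σ + 1) = c ^ il σ + c ^ (il σ + 1) * (q - q⁻¹) := by
      have : c * c ^ (il σ + 1) = c ^ il σ * (c * c) := by ring
      rw [this, hc]; ring
    rw [h2, show c * c ^ il σ = c ^ (il σ + 1) by ring, add_smul]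
    abel
  apply Finset.sum_involution (fun σ _ => sw n j * σ)
  · intro σ _
    by_cases ha : Asc j hj σ
    · exact key σ ha
    · have := key (sw n j * σ) ((asc_sw hj σ).2 ha)
      rw [sw_mul_cancel] at this
      rw [add_comm]; exact this
  · intro σ _ _ he
    have h1 := asc_sw hj σ
    rw [he] at h1
    by_cases ha : Asc j hj σ
    · exact (h1.1 ha) ha
    · exact ha (h1.2 ha)
  · intro σ hσ; exact hS σ hσ
  · intro σ _; exact sw_mul_cancel j σ

end

end Pool.Agent.V11124.HC
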