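import Pool.Agent.V11124.HC.Cen

open Finset

set_option linter.unusedSectionVars false

namespace Pool.Agent.V11124.HC

section
variable {R : Type*} [Ring R] [Algebra K R] {t : ℕ → R} {n : ℕ}

lemma HRel.mono {M M' : ℕ} (ht : HRel t M) (h : M' ≤ M) : HRel t M' :=
  ⟨fun i hi => ht.braid i (by omega), fun i j hij hj => ht.comm i j hij (by omega),
    fun i hi => ht.quad i (by omega)⟩

lemma sum_mul_t (ht : HRel t (n - 1)) (c : K) (hc : c * c = 1 + c * (q - q⁻¹))
    (S : Finset (Equiv.Perm (Fin n))) {j : ℕ} (hj : j + 1 < n)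
    (hS : ∀ σ ∈ S, sw n j * σ ∈ S) (hSi : ∀ σ ∈ S, σ⁻¹ ∈ S) :
    (∑ σ ∈ S, c ^ il σ • Tw t n σ) * t j = c • ∑ σ ∈ S, c ^ il σ • Tw t n σ := by
  have h1 := t_mul_sum ht.op c hc S hj hS
  have h2 : ∑ σ ∈ S, c ^ il σ • Tw (fun i => MulOpposite.op (t i)) n σ
      = MulOpposite.op (∑ σ ∈ S, c ^ il σ • Tw t n σ) := by
    have h3 : MulOpposite.op (∑ σ ∈ S, c ^ il σ • Tw t n σ)
        = ∑ σ ∈ S, MulOpposite.op (c ^ il σ • Tw t n σ) :=
      map_sum (MulOpposite.opAddEquiv : R ≃+ Rᵐᵒᵖ) _ _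
    rw [h3]
    refine Finset.sum_nbij' (fun σ => σ⁻¹) (fun σ => σ⁻¹) (fun σ h => hSi σ h)
      (fun σ h => hSi σ h) (fun σ _ => inv_inv σ) (fun σ _ => inv_inv σ) ?_
    intro σ _
    have h4 := Tw_op ht σ⁻¹
    rw [inv_inv] at h4
    rw [h4, il_inv, MulOpposite.op_smul]
  rw [h2, ← MulOpposite.op_mul, ← MulOpposite.op_smul] at h1
  exact MulOpposite.op_injective h1

lemma Tw_one (ht : HRel t (n - 1)) : Tw t n 1 = 1 := by
  rw [Tw_word ht 1 [] ⟨by simp, by simp⟩ (by rw [il_one]; rfl)]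
  simp

end

/-- the Hecke relations hold in `H(S_n)` -/
lemma hrel (n : ℕ) : HRel (T n) (n - 1) := by
  constructor
  · intro i hi
    have h1 : i < n - 1 := by omega
    unfold T
    rw [dif_pos h1, dif_pos hi, ← map_mul, ← map_mul, ← map_mul, ← map_mul]
    exact RingQuot.mkAlgHom_rel K (Rel.braid ⟨i, h1⟩ ⟨i + 1, hi⟩ rfl)
  · intro i j hij hj
    have h1 : i < n - 1 := by omega
    unfold T
    rw [dif_pos h1, dif_pos hj, ← map_mul, ← map_mul]
    exact RingQuot.mkAlgHom_rel K (Rel.comm ⟨i, h1⟩ ⟨j, hj⟩ hij)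
  · intro i hi
    have h := RingQuot.mkAlgHom_rel K (Rel.quad (n := n) ⟨i, hi⟩)
    have hT : T n i = RingQuot.mkAlgHom K (Rel n) (FreeAlgebra.ι K ⟨i, hi⟩) := by
      unfold T; rw [dif_pos hi]
    rw [map_mul, map_sub, map_add, map_zero, AlgHom.commutes, AlgHom.commutes, ← hT,
      Algebra.algebraMap_eq_smul_one, Algebra.algebraMap_eq_smul_one] at h
    have h2 : (T n i - q • 1) * (T n i + q⁻¹ • 1)
        = T n i * T n i - (q - q⁻¹) • T n i - (1 : Hecke n) := by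
      rw [sub_mul, mul_add, mul_add, mul_smul_comm, smul_mul_assoc, smul_mul_assoc, mul_one,
        one_mul, one_mul, smul_smul, mul_inv_cancel₀ q_ne, one_smul]
      have hs := sub_smul (R := K) (M := Hecke n) q q⁻¹ (T n i)
      have hs' : (q - q⁻¹) • T n i = q • T n i - q⁻¹ • T n i := by
        exact hs
      rw [hs']
      abel
    rw [h2, sub_sub, sub_eq_zero] at h
    rw [h]; abel

lemma hc_q : q * q = 1 + q * (q - q⁻¹) := by
  have := q_ne
  field_simp
  ring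

lemma hc_s : (-q⁻¹ : K) * (-q⁻¹) = 1 + (-q⁻¹) * (q - q⁻¹) := by
  have := q_ne
  field_simp
  ring

section
variable {N : ℕ} (μ : Fin (N + 1) → ℕ)

lemma msum_zero : msum μ 0 = 0 := by simp [msum]

lemma msum_succ (k : Fin (N + 1)) : msum μ ((k : ℕ) + 1) = msum μ k + μ k := by
  unfold msum
  have : μ k = ∑ j : Fin (N + 1), if j = k then μ j else 0 := by simp
  rw [this, ← sum_add_distrib]
  apply sum_congr rfl
  intro j _
  by_cases h1 : j = k
  · subst h1; simp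
  · have h2 : (j : ℕ) ≠ k := fun h => h1 (Fin.ext h)
    rw [if_neg h1, add_zero]
    by_cases h3 : (j : ℕ) < k
    · rw [if_pos h3, if_pos (by omega)]
    · rw [if_neg h3, if_neg (by omega)]

lemma msum_top : msum μ (N + 1) = tot μ := by
  unfold msum tot
  apply sum_congr rfl
  intro j _
  rw [if_pos j.isLt]

variable (hμ : ∀ i, 0 < μ i)
include hμ

lemma msum_lt {a b : ℕ} (hab : a < b) (hb : b ≤ N + 1) : msum μ a < msum μ b := by
  induction b with
  | zero => omega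
  | succ b ih =>
    have h1 := msum_succ μ ⟨b, by omega⟩
    have h2 := hμ ⟨b, by omega⟩
    simp only at h1
    by_cases h : a = b
    · subst h; omega
    · have := ih (by omega) (by omega); omega

lemma msum_ge {a : ℕ} (ha : a ≤ N + 1) : a ≤ msum μ a := by
  induction a with
  | zero => simp
  | succ a ih =>
    have := msum_lt μ hμ (a := a) (b := a + 1) (by omega) (by omega)
    have := ih (by omega)
    omega

end

/-- the base transversal -/
def T0 {N : ℕ} (μ : Fin (N + 1) → ℕ) : Finset ℕ := (range (N + 1)).image (msum μ)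

section
variable {N : ℕ} {μ : Fin (N + 1) → ℕ} (hμ : ∀ i, 0 < μ i)
include hμ

lemma T0_sub : T0 μ ⊆ range (tot μ) := by
  intro x hx
  unfold T0 at hx
  rw [mem_image] at hx
  obtain ⟨a, ha, rfl⟩ := hx
  rw [mem_range] at ha ⊢
  rw [← msum_top μ]
  exact msum_lt μ hμ ha le_rfl

lemma T0_card : (T0 μ).card = N + 1 := by
  unfold T0
  rw [card_image_of_injOn, card_range]
  intro a ha b hb hab
  simp only [coe_range, Set.mem_Iio] at ha hb
  rcases lt_trichotomy a b with h | h | h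
  · have := msum_lt μ hμ h (by omega); omega
  · exact h
  · have := msum_lt μ hμ h (by omega); omega

lemma T0_char (S : Finset ℕ) (hS : S ⊆ range (tot μ)) (hc : S.card = N + 1)
    (hJ : ∀ j ∈ Jset μ, j + 1 ∉ S) : S = T0 μ := by
  apply eq_of_subset_of_card_le
  · intro s hs
    unfold T0
    rw [mem_image]
    have hsn := mem_range.mp (hS hs)
    rcases Nat.eq_zero_or_pos s with h0 | h0
    · exact ⟨0, by simp, by rw [msum_zero, h0]⟩
    · obtain ⟨j, rfl⟩ : ∃ j, s = j + 1 := ⟨s - 1, by omega⟩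
      have hj : j ∉ Jset μ := fun h => hJ j h hs
      unfold Jset at hj
      simp only [Set.mem_ofPred_eq, not_and, not_forall, not_not] at hj
      obtain ⟨k, h1, h2, h3⟩ := hj hsn
      exact ⟨k, by rw [mem_range]; omega, h3.symm⟩
  · rw [T0_card hμ, hc]

lemma T0_mem_iff {x : ℕ} : x ∈ T0 μ ↔ ∃ k, k ≤ N ∧ msum μ k = x := by
  unfold T0
  rw [mem_image]
  constructor
  · rintro ⟨a, ha, h⟩; rw [mem_range] at ha; exact ⟨a, by omega, h⟩
  · rintro ⟨a, ha, h⟩; exact ⟨a, by rw [mem_range]; omega, h⟩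

lemma Dp_const {R : Type*} [Ring R] [Algebra K R] (t : ℕ → R) (S : Finset ℕ) {a b : ℕ}
    (hab : a ≤ b) (h : ∀ x, a ≤ x → x < b → x ∉ S) :
    Dp t S b = Dp t S a ∧ cnt S b = cnt S a := by
  clear hμ
  induction b with
  | zero =>
    have : a = 0 := by omega
    subst this; exact ⟨rfl, rfl⟩
  | succ b ih =>
    by_cases hb : a = b + 1
    · subst hb; exact ⟨rfl, rfl⟩
    · have hbS : b ∉ S := h b (by omega) (by omega)
      obtain ⟨h1, h2⟩ := ih (by omega) (fun x hx hx' => h x hx (by omega))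
      rw [Dp_not hbS, cnt_succ_not hbS]
      exact ⟨h1, h2⟩

lemma no_between {k x : ℕ} (hk : k ≤ N) (h1 : msum μ k + 1 ≤ x)
    (h2 : x < msum μ (k + 1)) : x ∉ T0 μ := by
  rw [T0_mem_iff hμ]
  rintro ⟨a, ha, rfl⟩
  rcases lt_trichotomy a k with h | h | h
  · have := msum_lt μ hμ h (by omega); omega
  · subst h; omega
  · rcases Nat.lt_or_ge (k + 1) a with h' | h'
    · have := msum_lt μ hμ h' (by omega); omega
    · have : a = k + 1 := by omega
      subst this; omega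

lemma Dp_T0 {R : Type*} [Ring R] [Algebra K R] (t : ℕ → R) {k : ℕ} (hk : k ≤ N) :
    Dp t (T0 μ) (msum μ k + 1) = ((List.range k).map fun i =>
      Cp t (msum μ (i + 1)) (i + 1)).prod ∧ cnt (T0 μ) (msum μ k + 1) = k + 1 := by
  induction k with
  | zero =>
    have h0 : 0 ∈ T0 μ := (T0_mem_iff hμ).2 ⟨0, by omega, msum_zero μ⟩
    rw [msum_zero, Dp_mem h0, cnt_succ_mem h0, cnt_zero, Cp_nil le_rfl]
    constructor
    · simp [Dp, DW]
    · rfl
  | succ k ih =>
    obtain ⟨ih1, ih2⟩ := ih (by omega)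
    have hmem : msum μ (k + 1) ∈ T0 μ := (T0_mem_iff hμ).2 ⟨k + 1, hk, rfl⟩
    have hlt := msum_lt μ hμ (a := k) (b := k + 1) (by omega) (by omega)
    obtain ⟨c1, c2⟩ := Dp_const hμ t (T0 μ) (a := msum μ k + 1) (b := msum μ (k + 1)) (by omega)
      (fun x hx hx' => no_between hμ (by omega) hx hx')
    rw [Dp_mem hmem, cnt_succ_mem hmem, c1, c2, ih1, ih2, List.range_succ, List.map_append,
      List.prod_append]
    exact ⟨by simp, rfl⟩

lemma Tgamma_eq : Tgamma μ = Dp (T (tot μ)) (T0 μ) (tot μ) := by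
  obtain ⟨h1, h2⟩ := Dp_T0 hμ (T (tot μ)) (le_refl N)
  have hlt := msum_lt μ hμ (a := N) (b := N + 1) (by omega) (by omega)
  obtain ⟨c1, _⟩ := Dp_const hμ (T (tot μ)) (T0 μ) (a := msum μ N + 1) (b := msum μ (N + 1))
    (by omega) (fun x hx hx' => no_between hμ (by omega) hx hx')
  rw [msum_top] at c1
  rw [c1, h1]
  rfl

end

/-! ### the Young subgroup -/
section
variable {N : ℕ} {μ : Fin (N + 1) → ℕ}

lemma Smu_block {σ : Equiv.Perm (Fin (tot μ))} (hσ : σ ∈ Smu μ) :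
    ∀ k, 1 ≤ k → k ≤ N → ∀ a : Fin (tot μ), ((σ a : Fin _) : ℕ) < msum μ k ↔ (a : ℕ) < msum μ k := by
  unfold Smu at hσ
  induction hσ using Subgroup.closure_induction with
  | mem x hx =>
    obtain ⟨i, ⟨hi1, hi2⟩, rfl⟩ := hx
    intro k h1 h2 a
    have := hi2 k h1 h2
    rw [sw_val hi1]
    split_ifs <;> omega
  | one => intro k _ _ a; rfl
  | mul x y _ _ hx hy =>
    intro k h1 h2 a
    rw [Equiv.Perm.mul_apply, hx k h1 h2, hy k h1 h2]
  | inv x _ hx =>
    intro k h1 h2 a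
    have := hx k h1 h2 (x⁻¹ a)
    rw [← this]
    simp

lemma sw_mem_Smu {j : ℕ} (hj : j ∈ Jset μ) : sw (tot μ) j ∈ Smu μ :=
  Subgroup.subset_closure ⟨j, hj, rfl⟩

lemma desc_J {σ : Equiv.Perm (Fin (tot μ))} (hσ : σ ∈ Smu μ) {j : ℕ} (hj : j + 1 < tot μ)
    (hd : ¬ Asc j hj σ) : j ∈ Jset μ := by
  by_contra hJ
  unfold Jset at hJ
  simp only [Set.mem_ofPred_eq, not_and, not_forall, not_not] at hJ
  obtain ⟨k, h1, h2, h3⟩ := hJ hj
  apply hd
  unfold Asc
  have hb := Smu_block ((Smu μ).inv_mem hσ) k h1 h2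
  have b1 := (hb ⟨j, Nat.lt_of_succ_lt hj⟩).2 (by simp only; omega)
  have b2 : ¬ (((σ⁻¹ ⟨j + 1, hj⟩ : Fin _) : ℕ) < msum μ k) := by
    rw [hb ⟨j + 1, hj⟩]; simp only; omega
  rw [Fin.lt_def]
  omega

lemma Tw_mul_e {R : Type*} [Ring R] [Algebra K R] {t : ℕ → R} (ht : HRel t (tot μ - 1)) {e : R}
    (he : ∀ j ∈ Jset μ, t j * e = q • e) (k : ℕ) :
    ∀ σ : Equiv.Perm (Fin (tot μ)), σ ∈ Smu μ → il σ = k → Tw t (tot μ) σ * e = q ^ k • e := by
  induction k with
  | zero =>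
    intro σ _ hk
    have : σ = 1 := by
      obtain ⟨w, hw, hl⟩ := exists_word σ
      rw [hk] at hl
      have : w = [] := List.eq_nil_of_length_eq_zero hl
      rw [this] at hw
      have h2 := hw.2
      simp at h2
      exact h2.symm
    rw [this, Tw_one ht]; simp
  | succ k ih =>
    intro σ hσ hk
    have : ∃ j, ∃ hj : j + 1 < tot μ, ¬ Asc j hj σ := by
      by_contra hcon
      push Not at hcon
      have := eq_one_of_asc σ hcon
      rw [this, il_one] at hk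
      omega
    obtain ⟨j, hj, hd⟩ := this
    have hJ := desc_J hσ hj hd
    have hd' := (asc_sw hj σ).2 hd
    have hl := il_sw_desc hj σ hd
    have h1 := Tw_asc ht hj _ hd'
    rw [sw_mul_cancel] at h1
    rw [h1, mul_assoc, ih (sw (tot μ) j * σ) ((Smu μ).mul_mem (sw_mem_Smu hJ) hσ) (by omega),
      mul_smul_comm, he j hJ, smul_smul, pow_succ]

open Classical in
lemma emu_props : (∀ j ∈ Jset μ, emu μ * T (tot μ) j = q • emu μ) ∧
    (∀ j ∈ Jset μ, T (tot μ) j * emu μ = q • emu μ) ∧ emu μ * emu μ = emu μ := by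
  have ht := hrel (tot μ)
  have hx : emu μ = (∑ σ ∈ (Finset.univ.filter fun σ : Equiv.Perm (Fin (tot μ)) => σ ∈ Smu μ),
      q ^ (2 * il σ))⁻¹ •
    ∑ σ ∈ (Finset.univ.filter fun σ : Equiv.Perm (Fin (tot μ)) => σ ∈ Smu μ),
      q ^ (il σ) • Tw (T (tot μ)) (tot μ) σ := by
    unfold emu
    simp only [len_eq]
  set W := (Finset.univ.filter fun σ : Equiv.Perm (Fin (tot μ)) => σ ∈ Smu μ) with hW
  have hWm : ∀ σ, σ ∈ W ↔ σ ∈ Smu μ := by intro σ; simp [hW]
  set P := ∑ σ ∈ W, q ^ (2 * il σ) with hP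
  have hl : ∀ j ∈ Jset μ, T (tot μ) j * emu μ = q • emu μ := by
    intro j hj
    rw [hx, mul_smul_comm, t_mul_sum ht q hc_q W hj.1 (fun σ hσ => by
      rw [hWm] at hσ ⊢; exact (Smu μ).mul_mem (sw_mem_Smu hj) hσ), smul_comm]
  have hr : ∀ j ∈ Jset μ, emu μ * T (tot μ) j = q • emu μ := by
    intro j hj
    rw [hx, smul_mul_assoc, sum_mul_t ht q hc_q W hj.1 (fun σ hσ => by
      rw [hWm] at hσ ⊢; exact (Smu μ).mul_mem (sw_mem_Smu hj) hσ) (fun σ hσ => by
      rw [hWm] at hσ ⊢; exact (Smu μ).inv_mem hσ), smul_comm]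
  refine ⟨hr, hl, ?_⟩
  have hPne : P ≠ 0 := by
    apply sum_ne_zero W _ (fun σ _ => Or.inr ⟨_, rfl⟩) 1 (by rw [hWm]; exact (Smu μ).one_mem)
    exact ⟨_, rfl⟩
  have h1 : (∑ σ ∈ W, q ^ (il σ) • Tw (T (tot μ)) (tot μ) σ) * emu μ = P • emu μ := by
    rw [sum_mul, hP, Finset.sum_smul]
    apply sum_congr rfl
    intro σ hσ
    rw [smul_mul_assoc, Tw_mul_e ht hl (il σ) σ ((hWm σ).1 hσ) rfl, smul_smul]
    congr 1
    rw [two_mul, pow_add]
  nth_rewrite 1 [hx]
  rw [smul_mul_assoc, h1, smul_smul, inv_mul_cancel₀ hPne, one_smul]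

end

/-! ### the antisymmetriser -/

lemma Aanti_eq (N n : ℕ) : Aanti N n = (q ^ ((N * (N + 1) / 2 : ℕ) : ℤ)) •
    ∑ σ : Equiv.Perm (Fin (N + 1)), (-q⁻¹ : K) ^ il σ • Tw (T n) (N + 1) σ := by
  unfold Aanti
  rw [smul_sum]
  apply sum_congr rfl
  intro σ _
  rw [smul_smul, len_eq]
  congr 1
  rw [zpow_sub₀ q_ne, neg_pow (q⁻¹), zpow_natCast, zpow_natCast, inv_pow]
  ring

lemma Aanti_left {N n : ℕ} (hN : N + 1 ≤ n) : ∀ i < N, T n i * Aanti N n = (-q⁻¹ : K) • Aanti N n := by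
  intro i hi
  have ht : HRel (T n) (N + 1 - 1) := (hrel n).mono (by omega)
  rw [Aanti_eq, mul_smul_comm, t_mul_sum ht _ hc_s univ (by omega) (fun _ _ => mem_univ _),
    smul_comm]

lemma Aanti_right {N n : ℕ} (hN : N + 1 ≤ n) : ∀ i < N, Aanti N n * T n i = (-q⁻¹ : K) • Aanti N n := by
  intro i hi
  have ht : HRel (T n) (N + 1 - 1) := (hrel n).mono (by omega)
  rw [Aanti_eq, smul_mul_assoc, sum_mul_t ht _ hc_s univ (by omega) (fun _ _ => mem_univ _)
    (fun _ _ => mem_univ _), smul_comm]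

lemma Aanti_comm {N n : ℕ} : ∀ j, N + 1 ≤ j → j < n - 1 → T n j * Aanti N n = Aanti N n * T n j := by
  intro j h1 h2
  have ht := hrel n
  rw [Aanti_eq, mul_smul_comm, smul_mul_assoc, mul_sum, sum_mul]
  congr 1
  apply sum_congr rfl
  intro σ _
  rw [mul_smul_comm, smul_mul_assoc]
  congr 1
  unfold Tw
  apply comm_hi ht h2
  intro i hi
  have := (redWord_spec σ).1.1 i hi
  omega

/-! ### the centre -/

lemma central {n : ℕ} {z : Hecke n} (hz : ∀ j < n - 1, T n j * z = z * T n j) (x : Hecke n) :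
    x * z = z * x := by
  obtain ⟨y, rfl⟩ := RingQuot.mkAlgHom_surjective K (Rel n) x
  induction y using FreeAlgebra.induction with
  | grade0 r => rw [AlgHom.commutes]; exact Algebra.commutes r z
  | grade1 i =>
    have := hz i i.isLt
    unfold T at this
    rw [dif_pos i.isLt] at this
    exact this
  | mul a b ha hb => rw [map_mul, mul_assoc, hb, ← mul_assoc, ha, mul_assoc]
  | add a b ha hb => rw [map_add, add_mul, mul_add, ha, hb]

/-- **Main theorem**. -/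
theorem main {N : ℕ} (μ : Fin (N + 1) → ℕ) (hμ : ∀ i, 0 < μ i) :
    IsUnit (Tgamma μ) ∧ ∀ x : Hecke (tot μ),
      Xmu μ * (emu μ * x * emu μ) = (emu μ * x * emu μ) * Xmu μ := by
  have hNt : N + 1 ≤ tot μ := by
    rw [← msum_top μ]; exact msum_ge μ hμ le_rfl
  have hM : tot μ - 1 + 1 = tot μ := by omega
  have ht := hrel (tot μ)
  obtain ⟨he, he', hee⟩ := emu_props (μ := μ)
  have hAl := Aanti_left hNt
  have hAr := Aanti_right hNt
  have hwm : ∀ i ∈ DW (T0 μ) (tot μ), i < tot μ - 1 := fun i hi => by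
    have := mem_DW hi; omega
  obtain ⟨d1, d2⟩ := Di_spec ht (DW (T0 μ) (tot μ)) hwm
  have hg : Tgamma μ = ((DW (T0 μ) (tot μ)).map (T (tot μ))).prod := Tgamma_eq hμ
  rw [← hg] at d1 d2
  have hu : Ring.inverse (Tgamma μ) = Di (T (tot μ)) (DW (T0 μ) (tot μ)) :=
    Ring.inverse_unit (⟨Tgamma μ, Di (T (tot μ)) (DW (T0 μ) (tot μ)), d1, d2⟩ : (Hecke (tot μ))ˣ)
  refine ⟨⟨⟨Tgamma μ, Di (T (tot μ)) (DW (T0 μ) (tot μ)), d1, d2⟩, rfl⟩, ?_⟩
  intro x
  obtain ⟨C, hC, hE⟩ := eze (t := T (tot μ)) (A := Aanti N (tot μ)) ht (by omega) (J := Jset μ)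
    (fun j hj => by rw [hM]; exact hj.1) he he' (T0 := T0 μ) (by rw [hM]; exact T0_sub hμ)
    (T0_card hμ) (by rw [hM]; exact fun S h1 h2 h3 => T0_char hμ S h1 h2 h3) hAl hAr
  rw [hM] at hE
  have hX : emu μ * Dp (T (tot μ)) (T0 μ) (tot μ) * Aanti N (tot μ) *
      Di (T (tot μ)) (DW (T0 μ) (tot μ)) * emu μ = Xmu μ := by
    unfold Xmu
    rw [hu, Tgamma_eq hμ]
  rw [hX] at hE
  set z := zz (T (tot μ)) (Aanti N (tot μ)) N (tot μ) with hz
  have hzc : ∀ y : Hecke (tot μ), y * z = z * y := by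
    apply central
    intro j hj
    have := zz_comm (t := T (tot μ)) (A := Aanti N (tot μ)) (N := N) ht
      (fun i hi => by rw [hAl i hi, hAr i hi]) Aanti_comm hj
    rw [hM] at this
    exact this
  have hX2 : Xmu μ = C⁻¹ • (emu μ * z * emu μ) := by
    rw [hE, smul_smul, inv_mul_cancel₀ hC, one_smul]
  rw [hX2, smul_mul_assoc, mul_smul_comm]
  congr 1
  have e1 : emu μ * z * emu μ = z * emu μ := by rw [hzc, mul_assoc, hee]
  have e2 : emu μ * z * emu μ = emu μ * z := by rw [mul_assoc, ← hzc, ← mul_assoc, hee]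
  calc emu μ * z * emu μ * (emu μ * x * emu μ)
      = z * (emu μ * emu μ) * x * emu μ := by rw [e1]; simp only [mul_assoc]
    _ = emu μ * x * emu μ * z := by rw [hee, hzc (emu μ * x * emu μ)]; simp only [mul_assoc]
    _ = emu μ * x * emu μ * (emu μ * z * emu μ) := by
        rw [e2]
        calc emu μ * x * emu μ * z = emu μ * x * (emu μ * emu μ) * z := by rw [hee]
          _ = _ := by simp only [mul_assoc]

end Pool.Agent.V11124.HC
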