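import Pool.Agent.V11124.HC.Defs

open Equiv Finset

namespace Pool.Agent.V11124.HC

/-- inversions -/
def inv {n : ℕ} (τ : Perm (Fin n)) : ℕ :=
  ((univ : Finset (Fin n × Fin n)).filter (fun p => p.1 < p.2 ∧ τ p.2 < τ p.1)).card

lemma sw_def {n i : ℕ} (h : i + 1 < n) : sw n i = Equiv.swap ⟨i, by omega⟩ ⟨i + 1, h⟩ := by
  simp [sw, h]

lemma sw_mul_self (n i : ℕ) : sw n i * sw n i = 1 := by
  unfold sw; split_ifs <;> simp

lemma sw_inv (n i : ℕ) : (sw n i)⁻¹ = sw n i := by
  rw [inv_eq_iff_mul_eq_one]; exact sw_mul_self n i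

lemma sw_sw (n i : ℕ) (x : Fin n) : sw n i (sw n i x) = x := by
  have := congrArg (fun f => f x) (sw_mul_self n i)
  simpa using this

lemma sw_val {n i : ℕ} (h : i + 1 < n) (x : Fin n) :
    ((sw n i x : Fin n) : ℕ) = if (x : ℕ) = i then i + 1 else if (x : ℕ) = i + 1 then i else x := by
  rw [sw_def h, Equiv.swap_apply_def]
  simp only [Fin.ext_iff]
  split_ifs <;> rfl

lemma inv_mul_sw {n i : ℕ} (h : i + 1 < n) (τ : Perm (Fin n))
    (hlt : τ ⟨i, by omega⟩ < τ ⟨i + 1, h⟩) : inv (τ * sw n i) = inv τ + 1 := by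
  classical
  unfold inv
  have hinj : Function.Injective (fun p : Fin n × Fin n => (sw n i p.1, sw n i p.2)) := by
    rintro ⟨a, b⟩ ⟨c, d⟩ hh
    simp only [Prod.mk.injEq, EmbeddingLike.apply_eq_iff_eq] at hh
    exact Prod.ext hh.1 hh.2
  have hset : (univ : Finset (Fin n × Fin n)).filter
        (fun p => p.1 < p.2 ∧ (τ * sw n i) p.2 < (τ * sw n i) p.1)
      = insert ((⟨i, by omega⟩, ⟨i + 1, h⟩) : Fin n × Fin n)
        (((univ : Finset (Fin n × Fin n)).filter
          (fun p => p.1 < p.2 ∧ τ p.2 < τ p.1)).image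
            (fun p : Fin n × Fin n => (sw n i p.1, sw n i p.2))) := by
    ext ⟨a, b⟩
    simp only [mem_filter, mem_univ, true_and, Perm.coe_mul, Function.comp_apply, mem_insert,
      Prod.mk.injEq, mem_image, Prod.exists]
    constructor
    · rintro ⟨hab, hτ⟩
      by_cases hs : a = ⟨i, by omega⟩ ∧ b = ⟨i + 1, h⟩
      · exact Or.inl hs
      · right
        refine ⟨sw n i a, sw n i b, ⟨?_, hτ⟩, sw_sw n i a, sw_sw n i b⟩
        rw [Fin.lt_def, sw_val h, sw_val h]
        rw [Fin.lt_def] at hab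
        simp only [Fin.ext_iff] at hs
        split_ifs <;> omega
    · rintro (⟨ha, hb⟩ | ⟨c, d, ⟨hcd, hτ⟩, ha, hb⟩)
      · subst ha; subst hb
        constructor
        · rw [Fin.lt_def]; simp
        · have h1 : sw n i ⟨i + 1, h⟩ = ⟨i, by omega⟩ := by
            apply Fin.ext; rw [sw_val h]; simp
          have h2 : sw n i ⟨i, by omega⟩ = ⟨i + 1, h⟩ := by
            apply Fin.ext; rw [sw_val h]; simp
          rw [h1, h2]; exact hlt
      · subst ha; subst hb
        refine ⟨?_, by rw [sw_sw, sw_sw]; exact hτ⟩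
        have hne : ¬ ((c : ℕ) = i ∧ (d : ℕ) = i + 1) := by
          rintro ⟨h1, h2⟩
          have e1 : c = ⟨i, Nat.lt_of_succ_lt h⟩ := Fin.ext h1
          have e2 : d = ⟨i + 1, h⟩ := Fin.ext h2
          subst e1 e2
          exact absurd hτ (not_lt.mpr hlt.le)
        rw [Fin.lt_def] at hcd ⊢
        rw [sw_val h, sw_val h]
        split_ifs <;> omega
  rw [hset, card_insert_of_notMem, card_image_of_injective _ hinj]
  simp only [mem_image, mem_filter, mem_univ, true_and, Prod.mk.injEq, Prod.exists, not_exists,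
    not_and]
  rintro c d ⟨hcd, _⟩ hc hd
  have hc' := congrArg Fin.val hc
  have hd' := congrArg Fin.val hd
  rw [sw_val h] at hc' hd'
  rw [Fin.lt_def] at hcd
  simp only at hc' hd'
  split_ifs at hc' hd' <;> omega

/-- `i` is a left ascent of `σ`. -/
def Asc {n : ℕ} (i : ℕ) (h : i + 1 < n) (σ : Perm (Fin n)) : Prop :=
  σ⁻¹ ⟨i, by omega⟩ < σ⁻¹ ⟨i + 1, h⟩

/-- length as inversions -/
def il {n : ℕ} (σ : Perm (Fin n)) : ℕ := inv σ⁻¹

lemma il_sw_asc {n i : ℕ} (h : i + 1 < n) (σ : Perm (Fin n)) (ha : Asc i h σ) :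
    il (sw n i * σ) = il σ + 1 := by
  unfold il
  rw [mul_inv_rev, sw_inv]
  exact inv_mul_sw h _ ha

lemma asc_sw {n i : ℕ} (h : i + 1 < n) (σ : Perm (Fin n)) :
    Asc i h (sw n i * σ) ↔ ¬ Asc i h σ := by
  unfold Asc
  rw [mul_inv_rev, sw_inv]
  have h1 : sw n i ⟨i + 1, h⟩ = ⟨i, by omega⟩ := by
    apply Fin.ext; rw [sw_val h]; simp
  have h2 : sw n i ⟨i, by omega⟩ = ⟨i + 1, h⟩ := by
    apply Fin.ext; rw [sw_val h]; simp
  rw [Perm.mul_apply, Perm.mul_apply, h1, h2]
  constructor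
  · exact fun h => not_lt.mpr h.le
  · intro hh
    apply lt_of_le_of_ne (not_lt.mp hh)
    intro he
    have := (σ⁻¹).injective he
    rw [Fin.ext_iff] at this
    simp at this

lemma sw_mul_cancel {n : ℕ} (i : ℕ) (σ : Perm (Fin n)) : sw n i * (sw n i * σ) = σ := by
  rw [← mul_assoc, sw_mul_self, one_mul]

lemma il_sw_desc {n i : ℕ} (h : i + 1 < n) (σ : Perm (Fin n)) (ha : ¬ Asc i h σ) :
    il (sw n i * σ) + 1 = il σ := by
  have h1 := il_sw_asc h (sw n i * σ) ((asc_sw h σ).2 ha)
  rw [sw_mul_cancel] at h1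
  exact h1.symm

lemma il_one (n : ℕ) : il (1 : Perm (Fin n)) = 0 := by
  unfold il inv
  rw [card_eq_zero, filter_eq_empty_iff]
  rintro ⟨a, b⟩ _ ⟨h1, h2⟩
  simp at h1 h2
  exact absurd h1 (not_lt.mpr h2.le)

lemma eq_one_of_asc {n : ℕ} (σ : Perm (Fin n)) (h : ∀ i (hi : i + 1 < n), Asc i hi σ) : σ = 1 := by
  have hm : StrictMono (σ⁻¹ : Perm (Fin n)) := by
    intro a b hab
    -- induction on b - a
    obtain ⟨b, hb⟩ := b
    obtain ⟨a, ha⟩ := a
    rw [Fin.lt_def] at hab
    simp only at hab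
    induction b with
    | zero => omega
    | succ b ih =>
      by_cases hab' : a = b
      · subst hab'
        exact h a hb
      · exact lt_trans (ih (by omega) (by omega)) (h b hb)
  have : (σ⁻¹ : Perm (Fin n)) = 1 := by
    ext x
    have hle : ∀ x : Fin n, (x : ℕ) ≤ (σ⁻¹ x : Fin n) := by
      rintro ⟨x, hx⟩
      induction x with
      | zero => simp
      | succ x ih =>
        have h1 := ih (by omega)
        have h2 := hm (a := ⟨x, by omega⟩) (b := ⟨x + 1, hx⟩) (by rw [Fin.lt_def]; simp)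
        rw [Fin.lt_def] at h2
        simp only at h1 h2 ⊢
        omega
    have hle' : ∀ x : Fin n, ((σ⁻¹ x : Fin n) : ℕ) ≤ x := by
      intro x
      obtain ⟨x, hx⟩ := x
      obtain ⟨d, hd⟩ : ∃ d, n = x + 1 + d := ⟨n - x - 1, by omega⟩
      induction d generalizing x with
      | zero =>
        have := (σ⁻¹ ⟨x, hx⟩).isLt
        simp only; omega
      | succ d ih =>
        have h1 := ih (x + 1) (by omega) (by omega)
        have h2 := hm (a := ⟨x, by omega⟩) (b := ⟨x + 1, by omega⟩) (by rw [Fin.lt_def]; simp)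
        rw [Fin.lt_def] at h2
        simp only at h1 h2 ⊢
        omega
    exact le_antisymm (hle' x) (hle x)
  exact inv_eq_one.mp this

lemma exists_word {n : ℕ} (σ : Perm (Fin n)) : ∃ w, IsWord n w σ ∧ w.length = il σ := by
  induction hk : il σ using Nat.strong_induction_on generalizing σ with
  | _ k ih =>
    by_cases hall : ∀ i (hi : i + 1 < n), Asc i hi σ
    · have := eq_one_of_asc σ hall
      subst this
      rw [il_one] at hk
      subst hk
      exact ⟨[], ⟨by simp, by simp⟩, rfl⟩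
    · simp only [not_forall] at hall
      obtain ⟨i, hi, ha⟩ := hall
      have h1 := il_sw_desc hi σ ha
      obtain ⟨w, ⟨hw1, hw2⟩, hw3⟩ := ih _ (by omega) (sw n i * σ) rfl
      refine ⟨i :: w, ⟨?_, ?_⟩, ?_⟩
      · intro j hj
        rcases List.mem_cons.mp hj with rfl | hj
        · exact hi
        · exact hw1 j hj
      · rw [List.map_cons, List.prod_cons, hw2, sw_mul_cancel]
      · rw [List.length_cons, hw3, ← hk, h1]

lemma il_le_length {n : ℕ} (w : List ℕ) (σ : Perm (Fin n)) (h : IsWord n w σ) :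
    il σ ≤ w.length := by
  induction w generalizing σ with
  | nil =>
    obtain ⟨_, h2⟩ := h
    simp at h2
    subst h2
    rw [il_one]; simp
  | cons i w ih =>
    obtain ⟨h1, h2⟩ := h
    rw [List.map_cons, List.prod_cons] at h2
    have hw : IsWord n w (w.map (sw n)).prod := ⟨fun j hj => h1 j (List.mem_cons_of_mem _ hj), rfl⟩
    have h3 := ih _ hw
    have hi := h1 i (List.mem_cons_self)
    rw [← h2, List.length_cons]
    by_cases ha : Asc i hi (w.map (sw n)).prod
    · rw [il_sw_asc hi _ ha]; omega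
    · have := il_sw_desc hi _ ha; omega

lemma len_eq {n : ℕ} (σ : Perm (Fin n)) : len n σ = il σ := by
  unfold len
  apply le_antisymm
  · apply Nat.sInf_le
    exact exists_word σ
  · apply le_csInf
    · exact ⟨_, exists_word σ⟩
    · rintro k ⟨w, hw, rfl⟩
      exact il_le_length w σ hw

lemma redWord_spec {n : ℕ} (σ : Perm (Fin n)) :
    IsWord n (redWord n σ) σ ∧ (redWord n σ).length = il σ := by
  have h : ∃ w, IsWord n w σ ∧ w.length = len n σ := by
    rw [len_eq]; exact exists_word σ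
  have := Classical.epsilon_spec h
  exact ⟨this.1, this.2.trans (len_eq σ)⟩

end Pool.Agent.V11124.HC
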