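import Pool.Agent.V11124.HC.D

open Finset

set_option linter.unusedSectionVars false

namespace Pool.Agent.V11124.HC

lemma q_ne : q ≠ 0 := RatFunc.X_ne_zero

lemma sum_image_tr {S : Finset ℕ} {j : ℕ} (h1 : j ∉ S) (h2 : j + 1 ∈ S) :
    ∑ i ∈ S.image (tr j), i + 1 = ∑ i ∈ S, i := by
  rw [sum_image (fun a _ b _ h => tr_inj j h), ← Finset.insert_erase h2,
    sum_insert (by simp), sum_insert (by simp), tr_self']
  have : ∑ x ∈ S.erase (j + 1), tr j x = ∑ x ∈ S.erase (j + 1), x := by
    apply sum_congr rfl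
    intro x hx
    rw [mem_erase] at hx
    exact tr_of_ne (by rintro rfl; exact h1 hx.2) hx.1
  rw [this]; ring

lemma card_image_tr (S : Finset ℕ) (j : ℕ) : (S.image (tr j)).card = S.card :=
  card_image_of_injective _ (tr_inj j)

lemma image_image_tr (S : Finset ℕ) (j : ℕ) : (S.image (tr j)).image (tr j) = S := by
  ext x; rw [mem_image_tr, mem_image_tr, tr_tr]

lemma image_tr_subset {S : Finset ℕ} {j n : ℕ} (hj : j + 1 < n) (h : S ⊆ range n) :
    S.image (tr j) ⊆ range n := by
  intro x hx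
  rw [mem_image_tr] at hx
  have := mem_range.mp (h hx)
  rw [mem_range]
  unfold tr at this
  split_ifs at this <;> omega

/-- moving down to the base set `T0`. -/
inductive Path (J : Set ℕ) (T0 : Finset ℕ) : Finset ℕ → ℕ → Prop
  | base : Path J T0 T0 0
  | step (S : Finset ℕ) (k j : ℕ) (hj : j ∈ J) (h1 : j ∉ S) (h2 : j + 1 ∈ S)
      (h : Path J T0 (S.image (tr j)) k) : Path J T0 S (k + 1)

/-- moving down to a set with two neighbours in the same block. -/
inductive Bad (J : Set ℕ) : Finset ℕ → Prop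
  | base (S : Finset ℕ) (j : ℕ) (hj : j ∈ J) (h1 : j ∈ S) (h2 : j + 1 ∈ S) : Bad J S
  | step (S : Finset ℕ) (j : ℕ) (hj : j ∈ J) (h1 : j ∉ S) (h2 : j + 1 ∈ S)
      (h : Bad J (S.image (tr j))) : Bad J S

lemma dichotomy {J : Set ℕ} {T0 : Finset ℕ} {n N : ℕ} (hJ : ∀ j ∈ J, j + 1 < n)
    (hT : ∀ S : Finset ℕ, S ⊆ range n → S.card = N + 1 → (∀ j ∈ J, j + 1 ∉ S) → S = T0)
    (m : ℕ) : ∀ S : Finset ℕ, ∑ i ∈ S, i = m → S ⊆ range n → S.card = N + 1 →
      Bad J S ∨ ∃ k, Path J T0 S k := by
  induction m with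
  | zero =>
    intro S hs hS hc
    by_cases hall : ∀ j ∈ J, j + 1 ∉ S
    · right
      rw [hT S hS hc hall]; exact ⟨0, Path.base⟩
    · push Not at hall
      obtain ⟨j, hj, hjS⟩ := hall
      by_cases h1 : j ∈ S
      · exact Or.inl (Bad.base S j hj h1 hjS)
      · have := sum_image_tr h1 hjS
        omega
  | succ m ih =>
    intro S hs hS hc
    by_cases hall : ∀ j ∈ J, j + 1 ∉ S
    · right
      rw [hT S hS hc hall]; exact ⟨0, Path.base⟩
    · push Not at hall
      obtain ⟨j, hj, hjS⟩ := hall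
      by_cases h1 : j ∈ S
      · exact Or.inl (Bad.base S j hj h1 hjS)
      · have h2 := sum_image_tr h1 hjS
        rcases ih (S.image (tr j)) (by omega) (image_tr_subset (hJ j hj) hS)
          (by rw [card_image_tr, hc]) with h | ⟨k, h⟩
        · exact Or.inl (Bad.step S j hj h1 hjS h)
        · exact Or.inr ⟨k + 1, Path.step S k j hj h1 hjS h⟩

lemma path_sum {J : Set ℕ} {T0 : Finset ℕ} {S : Finset ℕ} {k : ℕ} (h : Path J T0 S k) :
    ∑ i ∈ S, i = ∑ i ∈ T0, i + k := by
  induction h with
  | base => rfl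
  | step S k j hj h1 h2 _ ih =>
    have := sum_image_tr h1 h2
    omega

section
variable {R : Type*} [Ring R] [Algebra K R] {t : ℕ → R} {M N : ℕ}

/-- the sign-type vectors -/
def Sg (t : ℕ → R) (N : ℕ) (g : R) : Prop := ∀ i < N, t i * g = (-q⁻¹ : K) • g

lemma cnt_lt_of_in {S : Finset ℕ} {j : ℕ} (hS : S ⊆ range (M + 1)) (hc : S.card = N + 1)
    (h1 : j ∈ S) (h2 : j + 1 ∈ S) : cnt S j < N := by
  have a1 := cnt_succ_mem h1
  have a2 := cnt_succ_mem h2
  have hj := mem_range.mp (hS h2)
  have a3 := cnt_mono S (m := j + 1 + 1) (n := M + 1) (by omega)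
  rw [cnt_all hS, hc] at a3
  omega

lemma swap_down (ht : HRel t M) {S : Finset ℕ} {j : ℕ} (hj : j + 1 < M + 1)
    (h1 : j ∉ S) (h2 : j + 1 ∈ S) :
    Dp t S (M + 1) = t j * Dp t (S.image (tr j)) (M + 1) := by
  have h1' : j ∈ S.image (tr j) := by rw [mem_image_tr, tr_self]; exact h2
  have h2' : j + 1 ∉ S.image (tr j) := by rw [mem_image_tr, tr_self']; exact h1
  exact (D_swap ht h1' h2' (S' := S) (fun i => by rw [mem_image_tr, tr_tr])
    (n := M + 1) (by omega) le_rfl).1

lemma bad_zero (ht : HRel t M) {J : Set ℕ} (hJ : ∀ j ∈ J, j + 1 < M + 1) {e : R}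
    (he : ∀ j ∈ J, e * t j = q • e) {S : Finset ℕ} (h : Bad J S) :
    S ⊆ range (M + 1) → S.card = N + 1 → ∀ g : R, Sg t N g → e * Dp t S (M + 1) * g = 0 := by
  induction h with
  | base S j hj h1 h2 =>
    intro hS hc g hg
    have hjn := hJ j hj
    have hin := D_in ht h1 h2 (n := M + 1) (by omega) le_rfl
    have hlt : cnt S j < N := cnt_lt_of_in hS hc h1 h2
    have e1 : e * (t j * Dp t S (M + 1)) * g = q • (e * Dp t S (M + 1) * g) := by
      rw [← mul_assoc, he j hj, smul_mul_assoc, smul_mul_assoc]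
    have e2 : e * (t j * Dp t S (M + 1)) * g = (-q⁻¹ : K) • (e * Dp t S (M + 1) * g) := by
      rw [hin]
      calc e * (Dp t S (M + 1) * t (cnt S j)) * g
          = e * Dp t S (M + 1) * (t (cnt S j) * g) := by simp only [mul_assoc]
        _ = _ := by rw [hg _ hlt, mul_smul_comm]
    rw [e1] at e2
    have e3 : (q + q⁻¹) • (e * Dp t S (M + 1) * g) = 0 := by
      rw [add_smul, e2]; simp
    have hqq : q + q⁻¹ ≠ 0 := by
      intro h0
      have h1 : q * q + 1 = 0 := by
        have := congrArg (fun x => x * q) h0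
        simp only [add_mul, zero_mul, inv_mul_cancel₀ q_ne] at this
        exact this
      have h2 : algebraMap (Polynomial ℂ) K (Polynomial.X * Polynomial.X + 1) = 0 := by
        rw [map_add, map_mul, map_one, RatFunc.algebraMap_X]; exact h1
      have h3 : (Polynomial.X * Polynomial.X + 1 : Polynomial ℂ) = 0 :=
        RatFunc.algebraMap_injective ℂ (by rw [h2, map_zero])
      have h4 := congrArg (Polynomial.eval 0) h3
      simp at h4
    exact (smul_eq_zero.mp e3).resolve_left hqq
  | step S j hj h1 h2 h ih =>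
    intro hS hc g hg
    have hjn := hJ j hj
    rw [swap_down ht hjn h1 h2, ← mul_assoc, he j hj, smul_mul_assoc, smul_mul_assoc,
      ih (image_tr_subset hjn hS) (by rw [card_image_tr, hc]) g hg, smul_zero]

lemma path_q (ht : HRel t M) {J : Set ℕ} (hJ : ∀ j ∈ J, j + 1 < M + 1) {e : R}
    (he : ∀ j ∈ J, e * t j = q • e) {T0 S : Finset ℕ} {k : ℕ} (h : Path J T0 S k) (g : R) :
    e * Dp t S (M + 1) * g = q ^ k • (e * Dp t T0 (M + 1) * g) := by
  induction h with
  | base => simp
  | step S k j hj h1 h2 h ih =>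
    have hjn := hJ j hj
    rw [swap_down ht hjn h1 h2, ← mul_assoc, he j hj, smul_mul_assoc, smul_mul_assoc,
      ih, smul_smul, pow_succ']

/-- the filtration -/
noncomputable def Fl (t : ℕ → R) (M N : ℕ) (m : ℕ) : Submodule K R :=
  Submodule.span K {x | ∃ (S : Finset ℕ) (g : R), S ⊆ range (M + 1) ∧ S.card = N + 1 ∧
    ∑ i ∈ S, i < m ∧ Sg t N g ∧ x = Dp t S (M + 1) * g}

lemma Fl_mono {m m' : ℕ} (h : m ≤ m') : Fl t M N m ≤ Fl t M N m' := by
  apply Submodule.span_mono
  rintro x ⟨S, g, h1, h2, h3, h4, h5⟩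
  exact ⟨S, g, h1, h2, by omega, h4, h5⟩

lemma Sg_mul (ht : HRel t M) {g : R} (hg : Sg t N g) {j : ℕ} (h1 : N + 1 ≤ j) (h2 : j < M) :
    Sg t N (t j * g) := by
  intro i hi
  rw [← mul_assoc, ht.comm i j (by omega) h2, mul_assoc, hg i hi, mul_smul_comm]

lemma Fl_mul (ht : HRel t M) {m : ℕ} {j : ℕ} (hj : j < M) {x : R} (hx : x ∈ Fl t M N m) :
    t j * x ∈ Fl t M N (m + 1) := by
  unfold Fl at hx
  induction hx using Submodule.span_induction with
  | zero => rw [mul_zero]; exact Submodule.zero_mem _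
  | add x y _ _ hx hy => rw [mul_add]; exact Submodule.add_mem _ hx hy
  | smul a x _ hx => rw [mul_smul_comm]; exact Submodule.smul_mem _ _ hx
  | mem x hx =>
    obtain ⟨S, g, hS, hc, hm, hg, rfl⟩ := hx
    by_cases h1 : j ∈ S
    · by_cases h2 : j + 1 ∈ S
      · rw [← mul_assoc, D_in ht h1 h2 (by omega) le_rfl, mul_assoc,
          hg _ (cnt_lt_of_in hS hc h1 h2), mul_smul_comm]
        apply Submodule.smul_mem
        exact Submodule.subset_span ⟨S, g, hS, hc, by omega, hg, rfl⟩
      · have hsw := (D_swap ht h1 h2 (S' := S.image (tr j)) (fun i => mem_image_tr)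
          (n := M + 1) (by omega) le_rfl).1
        rw [← mul_assoc, ← hsw]
        apply Submodule.subset_span
        refine ⟨_, g, image_tr_subset (by omega) hS, by rw [card_image_tr, hc], ?_, hg, rfl⟩
        have h1' : j ∉ S.image (tr j) := by rw [mem_image_tr, tr_self]; exact h2
        have h2' : j + 1 ∈ S.image (tr j) := by rw [mem_image_tr, tr_self']; exact h1
        have := sum_image_tr h1' h2'
        rw [image_image_tr] at this
        omega
    · by_cases h2 : j + 1 ∈ S
      · rw [← mul_assoc, swap_down ht (by omega) h1 h2, ← mul_assoc, ht.quad j hj, add_mul,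
          one_mul, smul_mul_assoc, add_mul, smul_mul_assoc]
        apply Submodule.add_mem
        · apply Submodule.subset_span
          refine ⟨_, g, image_tr_subset (by omega) hS, by rw [card_image_tr, hc], ?_, hg, rfl⟩
          have := sum_image_tr h1 h2
          omega
        · apply Submodule.smul_mem
          rw [← swap_down ht (by omega) h1 h2]
          exact Submodule.subset_span ⟨S, g, hS, hc, by omega, hg, rfl⟩
      · obtain ⟨a1, a2, a3⟩ := D_out ht h1 h2 (n := M + 1) (by omega) le_rfl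
        rw [← mul_assoc, a3, mul_assoc]
        rw [cnt_all hS, hc] at a1 a2 ⊢
        exact Submodule.subset_span ⟨S, _, hS, hc, by omega,
          Sg_mul ht hg (j := j + (N + 1 - cnt S j)) (by omega) (by omega), rfl⟩

lemma DW_range (N n : ℕ) : DW (range (N + 1)) n = [] := by
  induction n with
  | zero => rfl
  | succ n ih =>
    by_cases hn : n ∈ range (N + 1)
    · rw [DW_mem hn, ih, List.nil_append, CW_nil]
      have : cnt (range (N + 1)) n = n := by
        unfold cnt
        have : (range (N + 1)).filter (· < n) = range n := by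
          ext x; rw [mem_filter, mem_range, mem_range]
          rw [mem_range] at hn
          omega
        rw [this, card_range]
      rw [this]
    · rw [DW_not hn, ih]

lemma word_Fl (ht : HRel t M) (hNM : N ≤ M) {A : R} (hA : Sg t N A) (w : List ℕ)
    (hw : ∀ i ∈ w, i < M) :
    (w.map t).prod * A ∈ Fl t M N (∑ i ∈ range (N + 1), i + w.length + 1) ∧
    (w.map (fun i => t i - (q - q⁻¹) • (1 : R))).prod * A - (w.map t).prod * A ∈
      Fl t M N (∑ i ∈ range (N + 1), i + w.length) := by
  induction w with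
  | nil =>
    constructor
    · apply Submodule.subset_span
      refine ⟨range (N + 1), A, ?_, card_range _, ?_, hA, ?_⟩
      · intro x hx; rw [mem_range] at hx ⊢; omega
      · simp
      · simp [Dp, DW_range]
    · simp
  | cons i w ih =>
    obtain ⟨ih1, ih2⟩ := ih (fun j hj => hw j (List.mem_cons_of_mem _ hj))
    have hi := hw i List.mem_cons_self
    simp only [List.map_cons, List.prod_cons, List.length_cons, mul_assoc]
    constructor
    · have := Fl_mul ht hi ih1
      refine Fl_mono ?_ this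
      omega
    · set x := (w.map (fun i => t i - (q - q⁻¹) • (1 : R))).prod * A with hx
      set y := (w.map t).prod * A with hy
      have hid : (t i - (q - q⁻¹) • (1 : R)) * x - t i * y
          = t i * (x - y) - (q - q⁻¹) • (x - y) - (q - q⁻¹) • y := by
        rw [sub_mul, smul_mul_assoc, one_mul, mul_sub, smul_sub]; abel
      rw [hid]
      apply Submodule.sub_mem
      · apply Submodule.sub_mem
        · refine Fl_mono ?_ (Fl_mul ht hi ih2)
          omega
        · apply Submodule.smul_mem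
          refine Fl_mono ?_ ih2
          omega
      · apply Submodule.smul_mem
        refine Fl_mono ?_ ih1
        omega

lemma e_Fl (ht : HRel t M) {J : Set ℕ} (hJ : ∀ j ∈ J, j + 1 < M + 1) {e : R}
    (he : ∀ j ∈ J, e * t j = q • e) {T0 : Finset ℕ}
    (hT : ∀ S : Finset ℕ, S ⊆ range (M + 1) → S.card = N + 1 → (∀ j ∈ J, j + 1 ∉ S) → S = T0)
    {x : R} (hx : x ∈ Fl t M N (∑ i ∈ T0, i)) : e * x = 0 := by
  unfold Fl at hx
  induction hx using Submodule.span_induction with
  | zero => rw [mul_zero]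
  | add x y _ _ hx hy => rw [mul_add, hx, hy, add_zero]
  | smul a x _ hx => rw [mul_smul_comm, hx, smul_zero]
  | mem x hx =>
    obtain ⟨S, g, hS, hc, hm, hg, rfl⟩ := hx
    rw [← mul_assoc]
    rcases dichotomy hJ hT _ S rfl hS hc with h | ⟨k, h⟩
    · exact bad_zero ht hJ he h hS hc g hg
    · have := path_sum h
      omega

/-- replacing the generators by their inverses in `e T_γ A` changes nothing. -/
lemma inv_eq (ht : HRel t M) (hNM : N ≤ M) {J : Set ℕ} (hJ : ∀ j ∈ J, j + 1 < M + 1) {e : R}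
    (he : ∀ j ∈ J, e * t j = q • e) {T0 : Finset ℕ} (hT0 : T0 ⊆ range (M + 1))
    (hT0c : T0.card = N + 1)
    (hT : ∀ S : Finset ℕ, S ⊆ range (M + 1) → S.card = N + 1 → (∀ j ∈ J, j + 1 ∉ S) → S = T0)
    {A : R} (hA : Sg t N A) :
    e * ((DW T0 (M + 1)).map (fun i => t i - (q - q⁻¹) • (1 : R))).prod * A
      = e * Dp t T0 (M + 1) * A := by
  obtain ⟨_, h2⟩ := word_Fl ht hNM hA (DW T0 (M + 1)) (fun i hi => by
    have := mem_DW hi; omega)
  have hl := length_DW T0 (M + 1)
  rw [cnt_all hT0, hT0c] at hl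
  have hf : T0.filter (· < M + 1) = T0 := by
    ext x; rw [mem_filter]
    exact ⟨fun h => h.1, fun h => ⟨h, mem_range.mp (hT0 h)⟩⟩
  rw [hf] at hl
  rw [show ∑ i ∈ range (N + 1), i + (DW T0 (M + 1)).length = ∑ i ∈ T0, i by omega] at h2
  have := e_Fl ht hJ he hT h2
  rw [mul_sub, sub_eq_zero, ← mul_assoc, ← mul_assoc] at this
  exact this

end

end Pool.Agent.V11124.HC
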